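import Pool.Agent.H950.SV.Prob
import Pool.Graph.R_pool_sql_team_seeded_63374d34.N717.EW.SUP

/-!
The probability that the outer boundary of a large cluster changes when a strip is added below a
rectangle.
-/

set_option autoImplicit false

namespace Pool.Agent.H950.SV

open H974 H12S H389NS H984N H984P H342P H443B Finset
open H973S (rim Om Tg pr_markov coe_inter')
open Pool.Agent.H950.AD
open Pool.Agent.H950.NT (ex_arm)
open Pool.Agent.N717.EW (Pr_cond)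

variable {F G : Finset Edg} {u : Vtx} {w h k : ℕ}

/-- The deterministic part. -/
theorem bad_det (hF : F ⊆ RE 0 w 0 h) {R ρ0 m : ℕ} (hk : 1 ≤ k) (hkm : k ≤ m)
    (hmR : 3 * (8 * m + 2) ≤ R) (hR0 : 8 * R ≤ ρ0) (hh : k + R ≤ h)
    (hB : BadS (8 * m) R ρ0 (RE 0 w k h) F) :
    Crs 0 k (4 * R) (ρ0 / 2) (↑F : Set Edg) ∨ Crs w k (4 * R) (ρ0 / 2) (↑F : Set Edg) ∨
    ∃ j ∈ Finset.range (w / m + 1),
      ((3 * (m : ℤ) ≤ j * m ∧ (j : ℤ) * m ≤ w - 3 * m) ∧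
        ∃ b ∈ Finset.Icc ((j : ℤ) * m - 3 * m) (j * m + 3 * m), Wev 1 (j * m) k m b (4 * m) F) ∨
      ((3 * (m : ℤ) ≤ j * m ∧ (j : ℤ) * m ≤ w - 3 * m) ∧
        ∃ b ∈ Finset.Icc ((j : ℤ) * m - 3 * m) (j * m + 3 * m), Wev (-1) (j * m) k m b (4 * m) F) ∨
      (((4 * R : ℤ) - (8 * m + 2) ≤ j * (8 * m + 2) ∧ (j : ℤ) * (8 * m + 2) ≤ w - 4 * R) ∧
        H3 (j * (8 * m + 2)) k (2 * (8 * m + 2)) (R - (8 * m + 2)) (↑F : Set Edg)) := by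
  have hm0 : 0 < m := by omega
  have e1 : 8 * m / 2 = 4 * m := by omega
  have hr : ∀ j : ℕ, (j : ℤ) * m ≤ w → j ∈ Finset.range (w / m + 1) := by
    intro j hj
    rw [Finset.mem_range, Nat.lt_succ_iff, Nat.le_div_iff_mul_le hm0]
    exact_mod_cast hj
  obtain ⟨u, hfar, hcase | hcase⟩ := hB
  · rcases nv_fail hF hk hkm le_rfl (by omega) hR0 (by omega) hfar hcase with h1 | h1 |
      ⟨j, h1, h2, s, hs, b, hb, h3⟩
    · exact Or.inl h1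
    · exact Or.inr (Or.inl h1)
    · right; right
      rw [e1] at h3
      refine ⟨j, hr j (by omega), ?_⟩
      rcases hs with rfl | rfl
      · exact Or.inl ⟨⟨h1, h2⟩, b, hb, h3⟩
      · exact Or.inr (Or.inl ⟨⟨h1, h2⟩, b, hb, h3⟩)
  · rcases lc_fail hF (by omega) hR0 hh hfar hcase with h1 | h1 | ⟨j, h1, h2, h3⟩
    · exact Or.inl h1
    · exact Or.inr (Or.inl h1)
    · right; right
      push_cast at h1 h2 h3
      refine ⟨j, hr j ?_, Or.inr (Or.inr ⟨⟨h1, h2⟩, h3⟩)⟩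
      have hj : (0:ℤ) ≤ j := Int.natCast_nonneg j
      have hm : (0:ℤ) ≤ m := Int.natCast_nonneg m
      nlinarith [mul_nonneg hj hm]

/-- **The probability that the outer boundary of a large cluster changes.** -/
theorem bad_strip : ∃ C c : ℝ, 0 < C ∧ 0 < c ∧ c ≤ 1 ∧ ∀ w h k m R ρ0 : ℕ, 1 ≤ k → k ≤ m →
    3 * (8 * m + 2) ≤ R → 8 * R ≤ ρ0 → k + R ≤ h →
    PQ (1/2) (RE 0 w 0 h) (BadS (8 * m) R ρ0 (RE 0 w k h)) ≤
      C * (((R:ℝ) / ρ0) ^ c + ((w:ℝ) / m + 1) * ((k:ℝ) / m) ^ c +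
        ((w:ℝ) / m + 1) * ((m:ℝ) / R) ^ (1 + c)) := by
  classical
  obtain ⟨C1, c1, hC1, hc1, harm⟩ := ex_arm
  obtain ⟨C2, c2, hC2, hc2, hwev⟩ := wev_pr
  obtain ⟨κ, hκ, hW⟩ := win_half
  obtain ⟨C3, c3, hC3, hc3, h3⟩ := H3_bound κ hκ
  obtain ⟨c, hc⟩ : ∃ c, c = min (min c1 c2) (min c3 1) := ⟨_, rfl⟩
  have hc0 : 0 < c := by rw [hc]; exact lt_min (lt_min hc1 hc2) (lt_min hc3 one_pos)
  have hcc1 : c ≤ c1 := by rw [hc]; exact (min_le_left _ _).trans (min_le_left _ _)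
  have hcc2 : c ≤ c2 := by rw [hc]; exact (min_le_left _ _).trans (min_le_right _ _)
  have hcc3 : c ≤ c3 := by rw [hc]; exact (min_le_right _ _).trans (min_le_left _ _)
  have hcl : c ≤ 1 := by rw [hc]; exact (min_le_right _ _).trans (min_le_right _ _)
  refine ⟨32 * C1 + 2 * C2 + 900 * C3, c, by positivity, hc0, hcl, ?_⟩
  intro w h k m R ρ0 hk hkm hmR hR0 hh
  have ok := okq (q := 1/2) (by norm_num) (by norm_num)
  have hm0 : 0 < m := by omega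
  have hk' : (1:ℝ) ≤ k := by exact_mod_cast hk
  have hm' : (0:ℝ) < m := by exact_mod_cast hm0
  have hR' : (0:ℝ) < R := by
    have : 0 < R := by omega
    exact_mod_cast this
  have hρ' : (0:ℝ) < ρ0 := by
    have : 0 < ρ0 := by omega
    exact_mod_cast this
  have pw : ∀ {x a b : ℝ}, 0 < x → x ≤ 1 → a ≤ b → x ^ b ≤ x ^ a := fun h0 h1 h2 =>
    Real.rpow_le_rpow_of_exponent_ge h0 h1 h2
  -- the corners
  have hcor : ∀ c0 : ℤ, PQ (1/2) (RE 0 w 0 h) (fun F => Crs c0 k (4 * R) (ρ0 / 2) ↑F) ≤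
      16 * C1 * ((R:ℝ) / ρ0) ^ c := by
    intro c0
    have k1 := harm (4 * R) (ρ0 / 2) (by omega) (by omega) c0 k (RE 0 w 0 h)
    have k2 : (0:ℝ) < ((ρ0 / 2 : ℕ) : ℝ) := by
      have : 0 < ρ0 / 2 := by omega
      exact_mod_cast this
    have k3 : ((4 * R : ℕ) : ℝ) ≤ ((ρ0 / 2 : ℕ) : ℝ) := by
      have : 4 * R ≤ ρ0 / 2 := by omega
      exact_mod_cast this
    have k4 : (ρ0:ℝ) ≤ 4 * ((ρ0 / 2 : ℕ) : ℝ) := by
      have : ρ0 ≤ 4 * (ρ0 / 2) := by omega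
      exact_mod_cast this
    have k5 : (0:ℝ) < ((4 * R : ℕ) : ℝ) := by push_cast; linarith
    have k6 : (((4 * R : ℕ) : ℝ) / ((ρ0 / 2 : ℕ) : ℝ)) ^ c1 ≤
        (((4 * R : ℕ) : ℝ) / ((ρ0 / 2 : ℕ) : ℝ)) ^ c :=
      pw (by positivity) (by rw [div_le_one k2]; exact k3) hcc1
    have k7 : ((4 * R : ℕ) : ℝ) / ((ρ0 / 2 : ℕ) : ℝ) ≤ 16 * ((R:ℝ) / ρ0) := by
      rw [← mul_div_assoc, div_le_div_iff₀ k2 hρ']
      push_cast
      nlinarith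
    have k8 : (((4 * R : ℕ) : ℝ) / ((ρ0 / 2 : ℕ) : ℝ)) ^ c ≤ 16 * ((R:ℝ) / ρ0) ^ c := by
      refine (Real.rpow_le_rpow (by positivity) k7 hc0.le).trans ?_
      rw [Real.mul_rpow (by norm_num) (by positivity)]
      apply mul_le_mul_of_nonneg_right _ (by positivity)
      calc (16:ℝ) ^ c ≤ 16 ^ (1:ℝ) := Real.rpow_le_rpow_of_exponent_le (by norm_num) hcl
        _ = 16 := Real.rpow_one _
    calc _ ≤ C1 * (((4 * R : ℕ) : ℝ) / ((ρ0 / 2 : ℕ) : ℝ)) ^ c1 := k1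
      _ ≤ C1 * (16 * ((R:ℝ) / ρ0) ^ c) := mul_le_mul_of_nonneg_left (k6.trans k8) hC1.le
      _ = 16 * C1 * ((R:ℝ) / ρ0) ^ c := by ring
  -- the windows
  have hkm1 : (k:ℝ) / m ≤ 1 := by
    rw [div_le_one hm']
    exact_mod_cast hkm
  have hwin : ∀ (s : ℤ) (j : ℕ), (s = 1 ∨ s = -1) → PQ (1/2) (RE 0 w 0 h) (fun F =>
      (3 * (m : ℤ) ≤ j * m ∧ (j : ℤ) * m ≤ w - 3 * m) ∧
        ∃ b ∈ Finset.Icc ((j : ℤ) * m - 3 * m) (j * m + 3 * m), Wev s (j * m) k m b (4 * m) F) ≤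
      C2 * ((k:ℝ) / m) ^ c := by
    intro s j hs
    apply Pr_cond ok _ _ _ (by positivity)
    rintro ⟨h1, h2⟩
    have k1 := hwev s (j * m) k m (4 * m) (RE 0 w 0 h) hs hk (by omega) (by omega) (by
      unfold Om
      exact RE_subset (by omega) (by omega) (by omega) (by omega))
    refine k1.trans (mul_le_mul_of_nonneg_left ?_ hC2.le)
    have k2 : (k:ℝ) / ((4 * m : ℕ) : ℝ) ≤ (k:ℝ) / m := by
      apply div_le_div_of_nonneg_left (by positivity) hm'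
      push_cast
      linarith
    refine (Real.rpow_le_rpow (by positivity) k2 hc2.le).trans ?_
    exact pw (by positivity) hkm1 hcc2
  -- the three arms
  have hthr : ∀ j : ℕ, PQ (1/2) (RE 0 w 0 h) (fun F =>
      ((4 * R : ℤ) - (8 * m + 2) ≤ j * (8 * m + 2) ∧ (j : ℤ) * (8 * m + 2) ≤ w - 4 * R) ∧
        H3 (j * (8 * m + 2)) k (2 * (8 * m + 2)) (R - (8 * m + 2)) (↑F : Set Edg)) ≤
      900 * C3 * ((m:ℝ) / R) ^ (1 + c) := by
    intro j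
    apply Pr_cond ok _ _ _ (by positivity)
    rintro ⟨h1, h2⟩
    have k1 := h3 (1/2) (R - (8 * m + 2)) (hW _) (2 * (8 * m + 2)) (R - (8 * m + 2)) (by omega)
      (by omega) le_rfl (j * (8 * m + 2)) k (RE 0 w 0 h) (by
        unfold hbU
        exact RE_subset (by omega) (by omega) (by omega) (by omega))
    have k2 : (0:ℝ) < ((R - (8 * m + 2) : ℕ) : ℝ) := by
      have : 0 < R - (8 * m + 2) := by omega
      exact_mod_cast this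
    have k3 : ((2 * (8 * m + 2) : ℕ) : ℝ) ≤ ((R - (8 * m + 2) : ℕ) : ℝ) := by
      have : 2 * (8 * m + 2) ≤ R - (8 * m + 2) := by omega
      exact_mod_cast this
    have k4 : 2 * (R:ℝ) ≤ 3 * ((R - (8 * m + 2) : ℕ) : ℝ) := by
      have : 2 * R ≤ 3 * (R - (8 * m + 2)) := by omega
      exact_mod_cast this
    have k5 : (0:ℝ) < ((2 * (8 * m + 2) : ℕ) : ℝ) := by push_cast; linarith
    have k6 := pw (x := ((2 * (8 * m + 2) : ℕ) : ℝ) / ((R - (8 * m + 2) : ℕ) : ℝ))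
      (a := 1 + c) (b := 1 + c3) (by positivity) (by rw [div_le_one k2]; exact k3) (by linarith)
    have k7 : ((2 * (8 * m + 2) : ℕ) : ℝ) / ((R - (8 * m + 2) : ℕ) : ℝ) ≤ 30 * ((m:ℝ) / R) := by
      rw [← mul_div_assoc, div_le_div_iff₀ k2 hR']
      have h1m : (1:ℝ) ≤ m := by exact_mod_cast hm0
      have h20 : ((2 * (8 * m + 2) : ℕ) : ℝ) ≤ 20 * m := by push_cast; linarith
      calc ((2 * (8 * m + 2) : ℕ) : ℝ) * R ≤ 20 * m * R := mul_le_mul_of_nonneg_right h20 hR'.le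
        _ = 10 * m * (2 * R) := by ring
        _ ≤ 10 * m * (3 * ((R - (8 * m + 2) : ℕ) : ℝ)) :=
          mul_le_mul_of_nonneg_left k4 (by positivity)
        _ = 30 * m * ((R - (8 * m + 2) : ℕ) : ℝ) := by ring
    have k8 : (((2 * (8 * m + 2) : ℕ) : ℝ) / ((R - (8 * m + 2) : ℕ) : ℝ)) ^ (1 + c) ≤
        900 * ((m:ℝ) / R) ^ (1 + c) := by
      refine (Real.rpow_le_rpow (by positivity) k7 (by linarith)).trans ?_
      rw [Real.mul_rpow (by norm_num) (by positivity)]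
      apply mul_le_mul_of_nonneg_right _ (by positivity)
      calc (30:ℝ) ^ (1 + c) ≤ 30 ^ (2:ℝ) :=
            Real.rpow_le_rpow_of_exponent_le (by norm_num) (by linarith)
        _ = 900 := by norm_num
    calc _ ≤ C3 * (((2 * (8 * m + 2) : ℕ) : ℝ) / ((R - (8 * m + 2) : ℕ) : ℝ)) ^ (1 + c3) := k1
      _ ≤ C3 * (900 * ((m:ℝ) / R) ^ (1 + c)) := mul_le_mul_of_nonneg_left (k6.trans k8) hC3.le
      _ = 900 * C3 * ((m:ℝ) / R) ^ (1 + c) := by ring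
  -- the union bound
  obtain ⟨X, hX⟩ : ∃ X : ℝ, X = C2 * ((k:ℝ) / m) ^ c + (C2 * ((k:ℝ) / m) ^ c +
    900 * C3 * ((m:ℝ) / R) ^ (1 + c)) := ⟨_, rfl⟩
  have hX0 : 0 ≤ X := by rw [hX]; positivity
  have hJ : PQ (1/2) (RE 0 w 0 h) (fun F => ∃ j ∈ Finset.range (w / m + 1),
      ((3 * (m : ℤ) ≤ j * m ∧ (j : ℤ) * m ≤ w - 3 * m) ∧
        ∃ b ∈ Finset.Icc ((j : ℤ) * m - 3 * m) (j * m + 3 * m), Wev 1 (j * m) k m b (4 * m) F) ∨
      ((3 * (m : ℤ) ≤ j * m ∧ (j : ℤ) * m ≤ w - 3 * m) ∧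
        ∃ b ∈ Finset.Icc ((j : ℤ) * m - 3 * m) (j * m + 3 * m), Wev (-1) (j * m) k m b (4 * m) F) ∨
      (((4 * R : ℤ) - (8 * m + 2) ≤ j * (8 * m + 2) ∧ (j : ℤ) * (8 * m + 2) ≤ w - 4 * R) ∧
        H3 (j * (8 * m + 2)) k (2 * (8 * m + 2)) (R - (8 * m + 2)) (↑F : Set Edg))) ≤
      ((w:ℝ) / m + 1) * X := by
    have k1 := Pr_exists_le ok (RE 0 (w:ℤ) 0 h) (Finset.range (w / m + 1)) (fun j F =>
      ((3 * (m : ℤ) ≤ j * m ∧ (j : ℤ) * m ≤ w - 3 * m) ∧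
        ∃ b ∈ Finset.Icc ((j : ℤ) * m - 3 * m) (j * m + 3 * m), Wev 1 (j * m) k m b (4 * m) F) ∨
      ((3 * (m : ℤ) ≤ j * m ∧ (j : ℤ) * m ≤ w - 3 * m) ∧
        ∃ b ∈ Finset.Icc ((j : ℤ) * m - 3 * m) (j * m + 3 * m), Wev (-1) (j * m) k m b (4 * m) F) ∨
      (((4 * R : ℤ) - (8 * m + 2) ≤ j * (8 * m + 2) ∧ (j : ℤ) * (8 * m + 2) ≤ w - 4 * R) ∧
        H3 (j * (8 * m + 2)) k (2 * (8 * m + 2)) (R - (8 * m + 2)) (↑F : Set Edg)))
    refine k1.trans ?_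
    have k2 : ∀ j ∈ Finset.range (w / m + 1), Pr (fun _ : Edg => (1/2:ℝ)) (RE 0 (w:ℤ) 0 h)
      (fun F => ((3 * (m : ℤ) ≤ j * m ∧ (j : ℤ) * m ≤ w - 3 * m) ∧
        ∃ b ∈ Finset.Icc ((j : ℤ) * m - 3 * m) (j * m + 3 * m), Wev 1 (j * m) k m b (4 * m) F) ∨
      ((3 * (m : ℤ) ≤ j * m ∧ (j : ℤ) * m ≤ w - 3 * m) ∧
        ∃ b ∈ Finset.Icc ((j : ℤ) * m - 3 * m) (j * m + 3 * m), Wev (-1) (j * m) k m b (4 * m) F) ∨
      (((4 * R : ℤ) - (8 * m + 2) ≤ j * (8 * m + 2) ∧ (j : ℤ) * (8 * m + 2) ≤ w - 4 * R) ∧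
        H3 (j * (8 * m + 2)) k (2 * (8 * m + 2)) (R - (8 * m + 2)) (↑F : Set Edg))) ≤ X := by
      intro j _
      rw [hX]
      refine (Pr_or_le ok _ _ _).trans (add_le_add (hwin 1 j (Or.inl rfl)) ?_)
      exact (Pr_or_le ok _ _ _).trans (add_le_add (hwin (-1) j (Or.inr rfl)) (hthr j))
    refine (Finset.sum_le_sum k2).trans ?_
    rw [Finset.sum_const, Finset.card_range, nsmul_eq_mul]
    apply mul_le_mul_of_nonneg_right _ hX0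
    push_cast
    have := Nat.cast_div_le (m := w) (n := m) (α := ℝ)
    linarith
  have hall : PQ (1/2) (RE 0 w 0 h) (BadS (8 * m) R ρ0 (RE 0 w k h)) ≤
      16 * C1 * ((R:ℝ) / ρ0) ^ c + (16 * C1 * ((R:ℝ) / ρ0) ^ c + ((w:ℝ) / m + 1) * X) := by
    refine (Pr_mono ok (fun F hF hB => bad_det hF hk hkm hmR hR0 hh hB)).trans ?_
    refine (Pr_or_le ok _ _ _).trans (add_le_add (hcor 0) ?_)
    exact (Pr_or_le ok _ _ _).trans (add_le_add (hcor w) hJ)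
  refine hall.trans ?_
  obtain ⟨T1, hT1⟩ : ∃ T1, T1 = ((R:ℝ) / ρ0) ^ c := ⟨_, rfl⟩
  obtain ⟨T2, hT2⟩ : ∃ T2, T2 = ((w:ℝ) / m + 1) * ((k:ℝ) / m) ^ c := ⟨_, rfl⟩
  obtain ⟨T3, hT3⟩ : ∃ T3, T3 = ((w:ℝ) / m + 1) * ((m:ℝ) / R) ^ (1 + c) := ⟨_, rfl⟩
  have p1 : 0 ≤ T1 := by rw [hT1]; positivity
  have p2 : 0 ≤ T2 := by rw [hT2]; positivity
  have p3 : 0 ≤ T3 := by rw [hT3]; positivity
  have e : ((w:ℝ) / m + 1) * X = 2 * C2 * T2 + 900 * C3 * T3 := by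
    rw [hX, hT2, hT3]; ring
  rw [e, ← hT1, ← hT2, ← hT3]
  have q1 := mul_nonneg hC1.le p1
  have q2 := mul_nonneg hC1.le p2
  have q3 := mul_nonneg hC1.le p3
  have q4 := mul_nonneg hC2.le p1
  have q5 := mul_nonneg hC2.le p3
  have q6 := mul_nonneg hC3.le p1
  have q7 := mul_nonneg hC3.le p2
  nlinarith

end Pool.Agent.H950.SV
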