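import Pool.Agent.H950.SV.Close
import Pool.Graph.R_seed8.H973R3.H3.Bound

/-!
A strip is added below a rectangle: what happens if the outer boundaries of the clusters are not
close to each other.
-/

set_option autoImplicit false

namespace Pool.Agent.H950.SV

open H974 H12S H389NS H984N H984P H342P H443B Finset
open H973 (EV no_cross hline' vline' reach_EV)
open H973S (sep_bottom rim Om Tg)
open Pool.Agent.H950.AD
open Pool.Agent.N116.EW (sd_comm' sd_tri sd_self' sd_nxt sd_mv sd_face sd_face_rt En)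

variable {F G : Finset Edg} {u : Vtx} {w h k : ℕ}

/-- The clusters which are not small have close outer boundaries in the two domains. -/
def BadS (ρ R ρ0 : ℕ) (E F : Finset Edg) : Prop :=
  ∃ u, (∀ x ∈ CV (F ∩ E) u, ∃ a ∈ CV (F ∩ E) u, (ρ0 : ℤ) ≤ sd x a) ∧
    (¬ NV ρ (F ∩ E) F u ∨ ¬ LC ρ R (F ∩ E) F u)

/-- A path above a line which leaves a rectangle. -/
theorem exit_half {H : Set Edg} {a b k d : ℤ} (hH : ∀ g ∈ H, k ≤ (src g).2) {v y : Vtx}
    (hv : inR a b k d v) (hy : y.1 ≤ a ∨ b ≤ y.1 ∨ d ≤ y.2) (h : Reach H v y) :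
    ∃ u, (inR a b k d u ∧ (u.1 = a ∨ u.1 = b ∨ u.2 = d)) ∧ Reach (H ∩ ↑(RE a b k d)) v u := by
  obtain ⟨w', w1, w2, w3⟩ := first_exit (a := a) (b := b) (c := k - 1) (d := d)
    (by unfold inR at hv ⊢; omega) h (by omega)
  have hinv : ∀ z, Reach (H ∩ ↑(RE a b (k - 1) d)) v z → k ≤ z.2 := by
    intro z hz
    induction hz with
    | refl => unfold inR at hv; omega
    | @tail z z' _ hs ih =>
      obtain ⟨⟨x, y, bo⟩, ⟨he, _⟩, hcase⟩ := hs
      have := hH _ he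
      simp only [src_mk] at this
      cases bo
      · simp only [src_mk, tgt_false] at hcase
        rcases hcase with ⟨h3, h4⟩ | ⟨h3, h4⟩
        · rw [← h4]; simp only; omega
        · rw [← h3]; simp only; omega
      · simp only [src_mk, tgt_true] at hcase
        rcases hcase with ⟨h3, h4⟩ | ⟨h3, h4⟩
        · rw [← h4]; simp only; omega
        · rw [← h3]; simp only; omega
  have hw := hinv w' w3
  refine ⟨w', ⟨?_, ?_⟩, w3.mono ?_⟩
  · unfold inR at w1 ⊢; omega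
  · omega
  · rintro ⟨x, y, bo⟩ ⟨e1, e3⟩
    refine ⟨e1, ?_⟩
    have := hH _ e1
    simp only [src_mk] at this
    cases bo
    · simp only [Finset.mem_coe, mem_RE_false] at e3 ⊢; omega
    · simp only [Finset.mem_coe, mem_RE_true] at e3 ⊢; omega

theorem src_low {a b k d : ℤ} {g : Edg} (hg : g ∈ RE a b k d) : k ≤ (src g).2 := by
  obtain ⟨x, y, _ | _⟩ := g
  · rw [mem_RE_false] at hg; simp only [src_mk]; omega
  · rw [mem_RE_true] at hg; simp only [src_mk]; omega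

/-- The ends of an edge between the two domains. -/
theorem touch (hF : F ⊆ RE 0 w 0 h) {e : Edg} (he : e ∈ F) (he' : e ∉ F ∩ RE 0 w k h)
    {x v : Vtx} (hE : En e x v) (hx : (k : ℤ) ≤ x.2) :
    x.2 = k ∧ v = (x.1, (k : ℤ) - 1) ∧ 0 ≤ x.1 ∧ x.1 ≤ w := by
  have h1 := hF he
  have h2 : e ∉ RE 0 (w : ℤ) k h := fun h3 => he' (Finset.mem_inter.2 ⟨he, h3⟩)
  obtain ⟨x0, y0, _ | _⟩ := e
  · rw [mem_RE_false] at h1 h2
    rcases hE with ⟨h3, h4⟩ | ⟨h3, h4⟩
    · rw [h3] at hx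
      simp only [src_mk] at hx
      omega
    · rw [h3] at hx ⊢
      rw [h4]
      simp only [src_mk, tgt_false] at hx ⊢
      refine ⟨by omega, ?_, by omega, by omega⟩
      ext
      · rfl
      · simp only; omega
  · rw [mem_RE_true] at h1 h2
    exfalso
    rcases hE with ⟨h3, h4⟩ | ⟨h3, h4⟩
    · rw [h3] at hx
      simp only [src_mk] at hx
      omega
    · rw [h3] at hx
      simp only [tgt_true] at hx
      omega

theorem rect_edge {a b c d : ℤ} {g : Edg} (hg : g ∈ RE a b c d) :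
    inR a b c d (src g) ∧ inR a b c d (tgt g) := by
  obtain ⟨x, y, _ | _⟩ := g
  · rw [mem_RE_false] at hg
    simp only [src_mk, tgt_false, inR]
    omega
  · rw [mem_RE_true] at hg
    simp only [src_mk, tgt_true, inR]
    omega

theorem rect_reach {a b c d : ℤ} {H : Set Edg} (hH : ∀ g ∈ H, g ∈ RE a b c d) {x y : Vtx}
    (h : Reach H x y) (hne : x ≠ y) : inR a b c d y := by
  rcases Relation.ReflTransGen.cases_tail h with h1 | ⟨c', -, hc⟩
  · exact absurd h1.symm hne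
  · obtain ⟨e, he, h2⟩ := hc
    have h3 := rect_edge (hH e he)
    rcases h2 with ⟨-, h2⟩ | ⟨h2, -⟩
    · rw [← h2]; exact h3.2
    · rw [← h2]; exact h3.1

/-- The vertices of a cluster of the inner domain. -/
theorem cv_up {x a : Vtx} (hx : x ∈ CV (F ∩ RE 0 w k h) u) (ha : a ∈ CV (F ∩ RE 0 w k h) u)
    (hxa : 0 < sd x a) : inR 0 w k h x := by
  have h1 : Reach (↑(F ∩ RE 0 w k h) : Set Edg) a x := by
    have h2 : Reach (↑(F ∩ RE 0 w k h) : Set Edg) u x := hx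
    have h3 : Reach (↑(F ∩ RE 0 w k h) : Set Edg) u a := ha
    exact h3.symm.trans h2
  refine rect_reach (fun g hg => ?_) h1 ?_
  · exact (Finset.mem_inter.1 (show g ∈ F ∩ RE 0 w k h by exact_mod_cast hg)).2
  · rintro rfl
    rw [sd_self'] at hxa
    exact lt_irrefl _ hxa

/-- Flipped edges leave the cluster. -/
theorem strip_lv (hF : F ⊆ RE 0 w 0 h) {ρ0 : ℕ} (h0 : 1 ≤ ρ0)
    (hfar : ∀ x ∈ CV (F ∩ RE 0 w k h) u, ∃ a ∈ CV (F ∩ RE 0 w k h) u, (ρ0 : ℤ) ≤ sd x a) :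
    Lv (F ∩ RE 0 w k h) F u := by
  intro e he heF x v hE hx hv
  obtain ⟨a, ha, hxa⟩ := hfar x hx
  obtain ⟨b, hb, hvb⟩ := hfar v hv
  have h1 := cv_up hx ha (by omega)
  have h2 := cv_up hv hb (by omega)
  obtain ⟨h3, h4, -⟩ := touch hF he heF hE h1.2.1
  rw [h4] at h2
  unfold inR at h2
  simp only at h2
  omega

/-- A long cluster close to a corner. -/
theorem corner {ρ0 r1 : ℕ} {c : ℤ} {x : Vtx} (hfar : ∀ x ∈ CV (F ∩ RE 0 w k h) u,
    ∃ a ∈ CV (F ∩ RE 0 w k h) u, (ρ0 : ℤ) ≤ sd x a) (hx : x ∈ CV (F ∩ RE 0 w k h) u)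
    (hx2 : x.2 = k) (hc : |x.1 - c| ≤ r1) (hr : 2 * r1 ≤ ρ0) :
    Crs c k r1 (ρ0 / 2) (↑F : Set Edg) := by
  obtain ⟨a, ha, hxa⟩ := hfar x hx
  rw [abs_le] at hc
  have h1 : Reach (↑F : Set Edg) x a := by
    have h2 : Reach (↑(F ∩ RE 0 w k h) : Set Edg) u x := hx
    have h3 : Reach (↑(F ∩ RE 0 w k h) : Set Edg) u a := ha
    refine (h2.symm.trans h3).mono ?_
    exact_mod_cast Finset.inter_subset_left
  refine ⟨x, a, ?_, ?_, h1⟩
  · unfold inR; omega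
  · unfold sd at hxa
    rcases le_max_iff.1 hxa with h4 | h4
    · rcases le_abs.1 h4 with h5 | h5 <;> omega
    · rcases le_abs.1 h4 with h5 | h5 <;> omega

/-- Failure of the local connections. -/
theorem lc_fail (hF : F ⊆ RE 0 w 0 h) {ρ R ρ0 : ℕ} (hρR : 3 * (ρ + 2) ≤ R) (hR0 : 8 * R ≤ ρ0)
    (hh : k + R ≤ h) (hfar : ∀ x ∈ CV (F ∩ RE 0 w k h) u,
    ∃ a ∈ CV (F ∩ RE 0 w k h) u, (ρ0 : ℤ) ≤ sd x a) (hLC : ¬ LC ρ R (F ∩ RE 0 w k h) F u) :
    Crs 0 k (4 * R) (ρ0 / 2) (↑F : Set Edg) ∨ Crs w k (4 * R) (ρ0 / 2) (↑F : Set Edg) ∨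
    ∃ j : ℕ, (4 * R : ℤ) - (ρ + 2) ≤ j * (ρ + 2) ∧ (j : ℤ) * (ρ + 2) ≤ w - 4 * R ∧
      H3 (j * (ρ + 2)) k (2 * (ρ + 2)) (R - (ρ + 2)) (↑F : Set Edg) := by
  unfold LC at hLC
  push Not at hLC
  obtain ⟨e, he, heF, e', he', heF', x, v, x', v', hE, hE', hx, hx', hxx, hno⟩ := hLC
  obtain ⟨a, ha, hxa⟩ := hfar x hx
  obtain ⟨a', ha', hxa'⟩ := hfar x' hx'
  have u1 := cv_up hx ha (by omega)
  have u2 := cv_up hx' ha' (by omega)
  have ua := cv_up ha hx (by rw [sd_comm']; omega)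
  have ua' := cv_up ha' hx' (by rw [sd_comm']; omega)
  obtain ⟨t1, t2, t3, t4⟩ := touch hF he heF hE u1.2.1
  obtain ⟨t1', t2', t3', t4'⟩ := touch hF he' heF' hE' u2.2.1
  by_cases c1 : x.1 < 4 * R
  · left
    refine corner hfar hx t1 ?_ (by omega)
    rw [abs_le]; push_cast; omega
  by_cases c2 : (w : ℤ) - 4 * R < x.1
  · right; left
    refine corner hfar hx t1 ?_ (by omega)
    rw [abs_le]; push_cast; omega
  right; right
  obtain ⟨g, hg⟩ : ∃ g : ℕ, g = ρ + 2 := ⟨_, rfl⟩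
  have hg' : (ρ : ℤ) + 2 = g := by rw [hg]; push_cast; ring
  have hg0 : (0 : ℤ) < g := by omega
  obtain ⟨j, hj⟩ : ∃ j : ℕ, (j : ℤ) = x.1 / g := ⟨(x.1 / g).toNat, by
    rw [Int.toNat_of_nonneg (Int.ediv_nonneg t3 hg0.le)]⟩
  have hj1 : (j : ℤ) * g ≤ x.1 := by
    rw [hj]
    exact Int.ediv_mul_le _ (by omega)
  have hj2 : x.1 < (j : ℤ) * g + g := by
    rw [hj]
    have := Int.lt_ediv_add_one_mul_self x.1 hg0
    rw [add_mul, one_mul] at this
    exact this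
  refine ⟨j, by rw [hg']; omega, by rw [hg']; omega, ?_⟩
  rw [hg', ← hg]
  obtain ⟨t, ht⟩ : ∃ t : ℤ, t = (j : ℤ) * g := ⟨_, rfl⟩
  rw [← ht] at hj1 hj2 ⊢
  obtain ⟨R', hR'⟩ : ∃ R', R' = R - g := ⟨_, rfl⟩
  have hR'' : (R' : ℤ) = R - g := by omega
  rw [← hR']
  have hlow : ∀ g' ∈ (↑(F ∩ RE 0 w k h) : Set Edg), (k : ℤ) ≤ (src g').2 := by
    intro g' hg'
    exact src_low (Finset.mem_inter.1 (show g' ∈ F ∩ RE 0 w k h by exact_mod_cast hg')).2
  have hsub : (↑(F ∩ RE 0 w k h) : Set Edg) ∩ ↑(RE (t - R') (t + R') k (k + R')) ⊆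
      ↑F ∩ ↑(hbU t k R') := by
    rintro g' ⟨h1, h2⟩
    exact ⟨by exact_mod_cast (Finset.mem_inter.1 (show g' ∈ F ∩ RE 0 w k h by
      exact_mod_cast h1)).1, h2⟩
  have harm : ∀ y b : Vtx, y ∈ CV (F ∩ RE 0 w k h) u → b ∈ CV (F ∩ RE 0 w k h) u → y.2 = k →
      inR 0 w k h b → |y.1 - t| ≤ 2 * g → (ρ0 : ℤ) ≤ sd y b →
      ∃ b ∈ rimU t k R', Reach (↑F ∩ ↑(hbU t k R')) y b := by
    intro y b hy hb hy2 hbb hyt hyb
    rw [abs_le] at hyt
    have hyb' : Reach (↑(F ∩ RE 0 w k h) : Set Edg) y b := by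
      have h2 : Reach (↑(F ∩ RE 0 w k h) : Set Edg) u y := hy
      have h3 : Reach (↑(F ∩ RE 0 w k h) : Set Edg) u b := hb
      exact h2.symm.trans h3
    obtain ⟨z, hz1, hz2⟩ := exit_half (a := t - R') (b := t + R') (k := k) (d := k + R') hlow
      (v := y) (y := b) (by unfold inR; omega) (by
        unfold sd at hyb
        unfold inR at hbb
        rcases le_max_iff.1 hyb with h4 | h4
        · rcases le_abs.1 h4 with h5 | h5 <;> omega
        · rcases le_abs.1 h4 with h5 | h5 <;> omega) hyb'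
    exact ⟨z, hz1, hz2.mono hsub⟩
  have hxx' := hxx
  unfold sd at hxx'
  have hxx1 := (max_le_iff.1 hxx').1
  rw [abs_le] at hxx1
  refine ⟨x, ⟨t1, ?_, ?_⟩, x', ⟨t1', ?_, ?_⟩, harm x a hx ha t1 ua ?_ hxa,
    harm x' a' hx' ha' t1' ua' ?_ hxa', ?_⟩
  · push_cast; omega
  · push_cast; omega
  · push_cast; omega
  · push_cast; omega
  · rw [abs_le]; omega
  · rw [abs_le]; omega
  · intro hcon
    apply hno
    refine hcon.symm.mono ?_
    rintro g' ⟨h1, h2⟩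
    have h3 := rect_edge (show g' ∈ RE (t - R') (t + R') k (k + R') by exact_mod_cast h2)
    have h4 : g' ∈ RE 0 (w : ℤ) k h := RE_subset (by omega) (by omega) (by omega) (by omega)
      (show g' ∈ RE (t - R') (t + R') k (k + R') by exact_mod_cast h2)
    refine ⟨Finset.mem_inter.2 ⟨by exact_mod_cast h1, h4⟩, ?_, ?_⟩
    · unfold inR at h3
      unfold sd
      apply max_le <;> rw [abs_le] <;> constructor <;> omega
    · unfold inR at h3
      unfold sd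
      apply max_le <;> rw [abs_le] <;> constructor <;> omega

end Pool.Agent.H950.SV
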