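import Pool.Agent.H950.SV.Scale

/-!
Slow variation of the outer boundary of the largest cluster.
-/

set_option autoImplicit false

namespace Pool.Agent.H950.SV

open H974 H12S H389NS H984N H984P H342P H443B Finset
open Pool.Agent.H950.AD
open Pool.Agent.H950.NT (ex_arm)
open H342P.Plain (Largest sqDist cluster clusterEdges mem_cluster edges edges_eq prob_eq)
open Pool.Agent.Results.MP_6bd702_pr.DiameterGaps (diam diam_greatest RunnerUp diam_eq
  small_largest largest_le)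

variable {F : Finset Edg} {n k : ℕ}

theorem pow_bd {L c c' a y : ℝ} {p q : ℕ} (hL : 1 ≤ L) (hc : 0 < c) (hc1 : c ≤ 1)
    (hcc : c ≤ c') (hp : 4 ≤ p * c) (ha : 1 ≤ a) (h1 : a / L ^ (p * q) ≤ 1) (hy : 0 ≤ y)
    (hya : y ≤ a / L ^ (p * q)) : y ^ c' ≤ a / L ^ (4 * q) := by
  have hL0 : 0 < L := by linarith
  have h2 : 0 < a / L ^ (p * q) := by positivity
  calc y ^ c' ≤ (a / L ^ (p * q)) ^ c' := Real.rpow_le_rpow hy hya (by linarith)
    _ ≤ (a / L ^ (p * q)) ^ c := Real.rpow_le_rpow_of_exponent_ge h2 h1 hcc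
    _ = a ^ c / (L ^ (p * q)) ^ c := Real.div_rpow (by linarith) (by positivity) c
    _ ≤ a / L ^ (4 * q) := by
      have h3 : a ^ c ≤ a := by
        calc a ^ c ≤ a ^ (1:ℝ) := Real.rpow_le_rpow_of_exponent_le ha hc1
          _ = a := Real.rpow_one a
      have h4 : L ^ (4 * q) ≤ (L ^ (p * q)) ^ c := by
        rw [← Real.rpow_natCast L (p * q), ← Real.rpow_mul hL0.le, ← Real.rpow_natCast L (4 * q)]
        apply Real.rpow_le_rpow_of_exponent_le hL
        push_cast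
        have hq : (0:ℝ) ≤ q := Nat.cast_nonneg q
        nlinarith
      exact div_le_div₀ (by linarith) h3 (by positivity) h4

theorem floor_half {y : ℝ} (hy : 1 ≤ y) : y / 2 ≤ (⌊y⌋₊ : ℝ) := by
  have h1 : y < (⌊y⌋₊ : ℝ) + 1 := Nat.lt_floor_add_one y
  have h2 : (1:ℝ) ≤ ⌊y⌋₊ := by
    have : 1 ≤ ⌊y⌋₊ := Nat.le_floor (by push_cast; exact hy)
    exact_mod_cast this
  linarith

/-- The probability of a long path next to the strips. -/
theorem long_pr {C c : ℝ} (h : ∀ (ρ R : ℕ), 1 ≤ ρ → ρ ≤ R → ∀ (c1 c2 : ℤ)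
    (S : Finset Edg), PQ (1/2) S (fun F => Crs c1 c2 ρ R ↑F) ≤ C * ((ρ:ℝ) / R) ^ c) {ρ0 g D : ℕ}
    (hk : 1 ≤ k) (hD : 2 * ρ0 + k ≤ D) (S : Finset Edg) :
    PQ (1/2) S (LongS n k ρ0 g D) ≤
      ((((n + k) / g + 2 : ℕ) : ℝ)) * (2 * (C * (((2 * ρ0 + k : ℕ) : ℝ) / D) ^ c)) := by
  have ok := okq (q := 1/2) (by norm_num) (by norm_num)
  have h1 := Pr_exists_le ok S (Finset.range ((n + k) / g + 2)) (fun j F =>
    Crs ((j : ℤ) * g) n (2 * ρ0 + k) D (↑F : Set Edg) ∨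
    Crs n ((j : ℤ) * g) (2 * ρ0 + k) D (↑F : Set Edg))
  refine h1.trans ?_
  refine (Finset.sum_le_sum (fun j _ => (Pr_or_le ok S _ _).trans
    (add_le_add (h (2 * ρ0 + k) D (by omega) hD _ _ S) (h (2 * ρ0 + k) D (by omega) hD _ _ S)))).trans
    ?_
  rw [Finset.sum_const, Finset.card_range, nsmul_eq_mul]
  apply le_of_eq
  ring

/-- The event that the outer boundaries of the largest clusters of the two boxes are not close. -/
def Sep (n k : ℕ) (r : ℝ) (F : Finset Edg) : Prop :=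
  ∃ v w, Largest (n + k) F v ∧ Largest n (F ∩ RE 0 n 0 n) w ∧
    ¬ Near2 (n + k) F v n (F ∩ RE 0 n 0 n) w r

theorem slow_large : ∃ (C : ℝ) (p : ℕ), 0 < C ∧ 1 ≤ p ∧ ∀ (n k : ℕ) (L : ℝ), 1 ≤ k →
    120 ≤ L → L ^ ((1 + 2 * p) * (1 + p) * (1 + p)) = ((n + k : ℕ) : ℝ) / k →
    PQ (1/2) (RE 0 ((n + k : ℕ) : ℤ) 0 ((n + k : ℕ) : ℤ)) (Sep n k (54 / L)) ≤ C / L := by
  obtain ⟨C1, c1, hC1, hc1, hc11, hbad⟩ := bad_strip
  obtain ⟨C2, c2, hC2, hc2, harm⟩ := ex_arm
  obtain ⟨C3, c3, K3, hC3, hc3, hK3, hgap⟩ := Pool.Agent.Results.MP_6bd702_pr.DiameterGaps.result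
  obtain ⟨c, hc⟩ : ∃ c, c = min (min c1 c2) (min c3 1) := ⟨_, rfl⟩
  have hc0 : 0 < c := by rw [hc]; exact lt_min (lt_min hc1 hc2) (lt_min hc3 one_pos)
  have hcc1 : c ≤ c1 := by rw [hc]; exact (min_le_left _ _).trans (min_le_left _ _)
  have hcc2 : c ≤ c2 := by rw [hc]; exact (min_le_left _ _).trans (min_le_right _ _)
  have hcc3 : c ≤ c3 := by rw [hc]; exact (min_le_right _ _).trans (min_le_left _ _)
  have hcl : c ≤ 1 := by rw [hc]; exact (min_le_right _ _).trans (min_le_right _ _)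
  obtain ⟨p, hp⟩ : ∃ p : ℕ, p = ⌈4 / c⌉₊ := ⟨_, rfl⟩
  have hpc : 4 ≤ p * c := by
    have h1 : 4 / c ≤ p := by rw [hp]; exact Nat.le_ceil _
    rwa [div_le_iff₀ hc0] at h1
  have hp1 : 1 ≤ p := by
    by_contra h
    have : p = 0 := by omega
    rw [this] at hpc
    norm_num at hpc
  refine ⟨120 * C2 + 32 * C1 + 65 * C3 + 24, p, by positivity, hp1, ?_⟩
  intro n k L hk hL hLe
  have ok := okq (q := 1/2) (by norm_num) (by norm_num)
  obtain ⟨N, hN⟩ : ∃ N : ℕ, N = n + k := ⟨_, rfl⟩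
  have hL0 : 0 < L := by linarith
  have hL1 : 1 ≤ L := by linarith
  have hk0 : (0:ℝ) < k := by exact_mod_cast hk
  have hk1 : (1:ℝ) ≤ k := by exact_mod_cast hk
  have hN0 : (0:ℝ) < N := by
    have : 0 < N := by omega
    exact_mod_cast this
  rw [← hN] at hLe
  obtain ⟨e1, he1⟩ : ∃ e1 : ℕ, e1 = 1 + p := ⟨_, rfl⟩
  obtain ⟨e2, he2⟩ : ∃ e2 : ℕ, e2 = 1 + 2 * p := ⟨_, rfl⟩
  obtain ⟨e3, he3⟩ : ∃ e3 : ℕ, e3 = e2 * (1 + p) := ⟨_, rfl⟩
  obtain ⟨e4, he4⟩ : ∃ e4 : ℕ, e4 = e3 * (1 + p) := ⟨_, rfl⟩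
  have hLe' : L ^ e4 = N / k := by rw [he4, he3, he2]; exact hLe
  have e12 : e2 = e1 + p := by omega
  have e23 : e3 = e2 + p * e2 := by rw [he3]; ring
  have e34 : e4 = e3 + p * e3 := by rw [he4]; ring
  have hpe2 : 1 ≤ p * e2 := Nat.mul_pos (by omega) (by omega)
  have hpe3 : 1 ≤ p * e3 := Nat.mul_pos (by omega) (by omega)
  have hkN : (k:ℝ) = N / L ^ e4 := by
    rw [hLe']
    field_simp
  -- comparison of scales
  have hLp : ∀ q : ℕ, 1 ≤ q → 120 ≤ L ^ q := by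
    intro q hq
    calc (120:ℝ) ≤ L := hL
      _ = L ^ 1 := (pow_one L).symm
      _ ≤ L ^ q := pow_le_pow_right₀ hL1 hq
  have hmon : ∀ q q' : ℕ, q ≤ q' → (N:ℝ) / L ^ q' ≤ N / L ^ q := by
    intro q q' h
    exact div_le_div_of_nonneg_left hN0.le (by positivity) (pow_le_pow_right₀ hL1 h)
  have hstep : ∀ q q' : ℕ, q < q' → 120 * ((N:ℝ) / L ^ q') ≤ N / L ^ q := by
    intro q q' h
    obtain ⟨t, ht⟩ : ∃ t, q' = q + t := ⟨q' - q, by omega⟩
    have h1 := hLp t (by omega)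
    rw [ht, pow_add, ← mul_div_assoc, div_le_div_iff₀ (by positivity) (by positivity)]
    calc 120 * (N:ℝ) * L ^ q ≤ L ^ t * N * L ^ q := by
          apply mul_le_mul_of_nonneg_right _ (by positivity)
          exact mul_le_mul_of_nonneg_right h1 hN0.le
      _ = N * (L ^ q * L ^ t) := by ring
  obtain ⟨D, hD⟩ : ∃ D : ℕ, D = ⌊(N:ℝ) / L ^ 1⌋₊ := ⟨_, rfl⟩
  obtain ⟨ρ0, hρ0⟩ : ∃ D : ℕ, D = ⌊(N:ℝ) / L ^ e1⌋₊ := ⟨_, rfl⟩
  obtain ⟨R, hR⟩ : ∃ D : ℕ, D = ⌊(N:ℝ) / L ^ e2⌋₊ := ⟨_, rfl⟩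
  obtain ⟨m, hm⟩ : ∃ D : ℕ, D = ⌊(N:ℝ) / L ^ e3⌋₊ := ⟨_, rfl⟩
  have hge : ∀ q : ℕ, q ≤ e4 → 1 ≤ (N:ℝ) / L ^ q := by
    intro q hq
    have := hmon q e4 hq
    rw [← hkN] at this
    linarith
  have o1 : 1 ≤ e4 := by omega
  have up : ∀ (y : ℝ), 0 ≤ y → (⌊y⌋₊ : ℝ) ≤ y := fun y hy => Nat.floor_le hy
  have D1 : (D:ℝ) ≤ N / L ^ 1 := by rw [hD]; exact up _ (by positivity)
  have D2 : (N:ℝ) / L ^ 1 / 2 ≤ D := by rw [hD]; exact floor_half (hge 1 o1)
  have ρ1 : (ρ0:ℝ) ≤ N / L ^ e1 := by rw [hρ0]; exact up _ (by positivity)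
  have ρ2 : (N:ℝ) / L ^ e1 / 2 ≤ ρ0 := by rw [hρ0]; exact floor_half (hge e1 (by omega))
  have R1 : (R:ℝ) ≤ N / L ^ e2 := by rw [hR]; exact up _ (by positivity)
  have R2 : (N:ℝ) / L ^ e2 / 2 ≤ R := by rw [hR]; exact floor_half (hge e2 (by omega))
  have m1 : (m:ℝ) ≤ N / L ^ e3 := by rw [hm]; exact up _ (by positivity)
  have m2 : (N:ℝ) / L ^ e3 / 2 ≤ m := by rw [hm]; exact floor_half (hge e3 (by omega))
  -- relations between the integers
  have km : k ≤ m := by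
    rw [hm]
    apply Nat.le_floor
    have := hmon e3 e4 (by omega)
    rw [← hkN] at this
    exact this
  have mR : 30 * m ≤ R := by
    have h1 := hstep e2 e3 (by omega)
    have : ((30 * m : ℕ) : ℝ) ≤ R := by push_cast; linarith
    exact_mod_cast this
  have Rρ : 8 * R ≤ ρ0 := by
    have h1 := hstep e1 e2 (by omega)
    have : ((8 * R : ℕ) : ℝ) ≤ ρ0 := by push_cast; linarith
    exact_mod_cast this
  have ρD : 16 * ρ0 ≤ D := by
    have h1 := hstep 1 e1 (by omega)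
    have : ((16 * ρ0 : ℕ) : ℝ) ≤ D := by push_cast; linarith
    exact_mod_cast this
  have DN : 120 * D ≤ N := by
    have h1 := hstep 0 1 (by omega)
    rw [pow_zero, div_one] at h1
    have : ((120 * D : ℕ) : ℝ) ≤ N := by push_cast; linarith
    exact_mod_cast this
  have hD480 : 480 ≤ D := by
    have := hk
    omega
  obtain ⟨g, hg⟩ : ∃ g : ℕ, g = D / 4 := ⟨_, rfl⟩
  have hg1 : 1 ≤ g := by omega
  have hg2 : 4 * g ≤ D := by omega
  have hg3 : D ≤ 8 * g := by omega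
  have hm0 : (0:ℝ) < m := by
    have : 0 < m := by omega
    exact_mod_cast this
  have hR0 : (0:ℝ) < R := by
    have : 0 < R := by omega
    exact_mod_cast this
  have hρ0' : (0:ℝ) < ρ0 := by
    have : 0 < ρ0 := by omega
    exact_mod_cast this
  have hD0' : (0:ℝ) < D := by
    have : 0 < D := by omega
    exact_mod_cast this
  have hg0' : (0:ℝ) < g := by exact_mod_cast hg1
  have hmr : ∀ {q q' : ℕ}, (q ≤ q') → ((q:ℝ) ≤ q') := fun h => by exact_mod_cast h
  -- the bounds of the error terms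
  have inv3 : ∀ q : ℕ, 1 ≤ q → 1 / L ^ q ≤ 1 / L := by
    intro q hq
    apply one_div_le_one_div_of_le hL0
    calc L = L ^ 1 := (pow_one L).symm
      _ ≤ L ^ q := pow_le_pow_right₀ hL1 hq
  have b1 : (((2 * ρ0 + k : ℕ) : ℝ) / D) ^ c2 ≤ 6 / L ^ 4 := by
    have h1 : ((2 * ρ0 + k : ℕ) : ℝ) / D ≤ 6 / L ^ (p * 1) := by
      rw [div_le_div_iff₀ hD0' (by positivity), mul_one]
      have h2 : ((2 * ρ0 + k : ℕ) : ℝ) ≤ 3 * (N / L ^ e1) := by
        have h3 : (k:ℝ) ≤ ρ0 := hmr (by omega)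
        push_cast
        linarith
      have h3 : 3 * ((N:ℝ) / L ^ e1) * L ^ p = 6 * (N / L ^ 1 / 2) := by
        rw [he1, pow_add]
        field_simp
        ring
      calc ((2 * ρ0 + k : ℕ) : ℝ) * L ^ p ≤ 3 * (N / L ^ e1) * L ^ p :=
            mul_le_mul_of_nonneg_right h2 (by positivity)
        _ = 6 * (N / L ^ 1 / 2) := h3
        _ ≤ 6 * D := by linarith
    have h4 := pow_bd (a := 6) (q := 1) hL1 hc0 hcl hcc2 hpc (by norm_num) (by
      rw [div_le_one (by positivity), mul_one]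
      have := hLp p hp1
      linarith) (by positivity) h1
    rwa [mul_one] at h4
  have b2 : ((R:ℝ) / ρ0) ^ c1 ≤ 2 / L ^ 4 := by
    have h1 : (R:ℝ) / ρ0 ≤ 2 / L ^ (p * 1) := by
      rw [div_le_div_iff₀ hρ0' (by positivity), mul_one]
      have h3 : ((N:ℝ) / L ^ e2) * L ^ p = 2 * (N / L ^ e1 / 2) := by
        rw [e12, pow_add]
        field_simp
      calc (R:ℝ) * L ^ p ≤ (N / L ^ e2) * L ^ p :=
            mul_le_mul_of_nonneg_right R1 (by positivity)
        _ = 2 * (N / L ^ e1 / 2) := h3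
        _ ≤ 2 * ρ0 := by linarith
    have h4 := pow_bd (a := 2) (q := 1) hL1 hc0 hcl hcc1 hpc (by norm_num) (by
      rw [div_le_one (by positivity), mul_one]
      have := hLp p hp1
      linarith) (by positivity) h1
    rwa [mul_one] at h4
  have b3 : ((k:ℝ) / m) ^ c1 ≤ 2 / L ^ (4 * e3) := by
    have h1 : (k:ℝ) / m ≤ 2 / L ^ (p * e3) := by
      rw [div_le_div_iff₀ hm0 (by positivity)]
      have h3 : (k:ℝ) * L ^ (p * e3) = 2 * (N / L ^ e3 / 2) := by
        rw [hkN, e34, pow_add]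
        field_simp
      calc (k:ℝ) * L ^ (p * e3) = 2 * (N / L ^ e3 / 2) := h3
        _ ≤ 2 * m := by linarith
    exact pow_bd (a := 2) (q := e3) hL1 hc0 hcl hcc1 hpc (by norm_num) (by
      rw [div_le_one (by positivity)]
      have := hLp (p * e3) hpe3
      linarith) (by positivity) h1
  have b4 : ((m:ℝ) / R) ^ c1 ≤ 2 / L ^ (4 * e2) := by
    have h1 : (m:ℝ) / R ≤ 2 / L ^ (p * e2) := by
      rw [div_le_div_iff₀ hR0 (by positivity)]
      have h3 : ((N:ℝ) / L ^ e3) * L ^ (p * e2) = 2 * (N / L ^ e2 / 2) := by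
        rw [e23, pow_add]
        field_simp
      calc (m:ℝ) * L ^ (p * e2) ≤ (N / L ^ e3) * L ^ (p * e2) :=
            mul_le_mul_of_nonneg_right m1 (by positivity)
        _ = 2 * (N / L ^ e2 / 2) := h3
        _ ≤ 2 * R := by linarith
    exact pow_bd (a := 2) (q := e2) hL1 hc0 hcl hcc1 hpc (by norm_num) (by
      rw [div_le_one (by positivity)]
      have := hLp (p * e2) hpe2
      linarith) (by positivity) h1
  -- the strips
  have hmN : (m:ℝ) ≤ N := hmr (by omega)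
  have hstrip : ∀ w : ℕ, w ≤ N → PQ (1/2) (RE 0 (w:ℤ) 0 ((n + k : ℕ) : ℤ))
      (BadS (8 * m) R ρ0 (RE 0 w k ((n + k : ℕ) : ℤ))) ≤ 16 * C1 / L := by
    intro w hw
    refine (hbad w (n + k) k m R ρ0 hk km (by omega) Rρ (by omega)).trans ?_
    have hwN : (w:ℝ) ≤ N := hmr hw
    have hNm : (w:ℝ) / m + 1 ≤ 2 * (N / m) := by
      have h1 : (w:ℝ) / m ≤ N / m := div_le_div_of_nonneg_right hwN hm0.le
      have h2 : 1 ≤ (N:ℝ) / m := by rw [le_div_iff₀ hm0]; linarith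
      linarith
    have hNm2 : (N:ℝ) / m ≤ 2 * L ^ e3 := by
      rw [div_le_iff₀ hm0]
      calc (N:ℝ) = 2 * L ^ e3 * (N / L ^ e3 / 2) := by field_simp
        _ ≤ 2 * L ^ e3 * m := mul_le_mul_of_nonneg_left m2 (by positivity)
    have hNR : (N:ℝ) / R ≤ 2 * L ^ e2 := by
      rw [div_le_iff₀ hR0]
      calc (N:ℝ) = 2 * L ^ e2 * (N / L ^ e2 / 2) := by field_simp
        _ ≤ 2 * L ^ e2 * R := mul_le_mul_of_nonneg_left R2 (by positivity)
    have t1 : ((R:ℝ) / ρ0) ^ c1 ≤ 2 / L := by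
      refine b2.trans ?_
      have := inv3 4 (by norm_num)
      calc 2 / L ^ 4 = 2 * (1 / L ^ 4) := by ring
        _ ≤ 2 * (1 / L) := by linarith
        _ = 2 / L := by ring
    have t2 : ((w:ℝ) / m + 1) * ((k:ℝ) / m) ^ c1 ≤ 8 / L := by
      have h0 : 0 ≤ ((k:ℝ) / m) ^ c1 := by positivity
      calc ((w:ℝ) / m + 1) * ((k:ℝ) / m) ^ c1 ≤ (4 * L ^ e3) * (2 / L ^ (4 * e3)) := by
            apply mul_le_mul (by linarith) b3 h0 (by positivity)
        _ = 8 * (1 / L ^ (3 * e3)) := by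
            rw [show 4 * e3 = e3 + 3 * e3 by ring, pow_add]
            field_simp
            norm_num
        _ ≤ 8 * (1 / L) := by
            have := inv3 (3 * e3) (by omega)
            linarith
        _ = 8 / L := by ring
    have t3 : ((w:ℝ) / m + 1) * ((m:ℝ) / R) ^ (1 + c1) ≤ 6 / L := by
      have h0 : 0 ≤ ((m:ℝ) / R) ^ c1 := by positivity
      rw [Real.rpow_add (by positivity), Real.rpow_one]
      calc ((w:ℝ) / m + 1) * ((m:ℝ) / R * ((m:ℝ) / R) ^ c1)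
          ≤ (2 * (N / m)) * ((m:ℝ) / R * ((m:ℝ) / R) ^ c1) :=
            mul_le_mul_of_nonneg_right hNm (by positivity)
        _ = 2 * (N / R) * ((m:ℝ) / R) ^ c1 := by field_simp
        _ ≤ (4 * L ^ e2) * (2 / L ^ (4 * e2)) := by
            apply mul_le_mul (by linarith) b4 h0 (by positivity)
        _ = 8 * (1 / L ^ (3 * e2)) := by
            rw [show 4 * e2 = e2 + 3 * e2 by ring, pow_add]
            field_simp
            norm_num
        _ ≤ 6 * (1 / L) := by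
            have h1 : 1 / L ^ (3 * e2) ≤ 1 / (120 * L) := by
              apply one_div_le_one_div_of_le (by positivity)
              obtain ⟨t, ht⟩ : ∃ t, 3 * e2 = 1 + (1 + t) := ⟨3 * e2 - 2, by omega⟩
              rw [ht, pow_add, pow_one, mul_comm]
              exact mul_le_mul_of_nonneg_left (hLp (1 + t) (by omega)) hL0.le
            have h2 : 8 * (1 / (120 * L)) ≤ 6 * (1 / L) := by
              rw [one_div, one_div, mul_inv]
              have : 0 < L⁻¹ := by positivity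
              nlinarith
            linarith
        _ = 6 / L := by ring
    calc _ ≤ C1 * (2 / L + 8 / L + 6 / L) := by
          apply mul_le_mul_of_nonneg_left _ hC1.le
          linarith
      _ = 16 * C1 / L := by ring
  -- the five events
  have p1 : PQ (1/2) (RE 0 ((n + k : ℕ) : ℤ) 0 ((n + k : ℕ) : ℤ)) (LongS n k ρ0 g D) ≤
      120 * C2 / L := by
    refine (long_pr harm hk (by omega) _).trans ?_
    have h1 : ((((n + k) / g + 2 : ℕ) : ℝ)) ≤ 20 * L := by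
      push_cast
      have h2 : (((n + k) / g : ℕ) : ℝ) ≤ (N:ℝ) / g := by
        rw [← hN]; exact Nat.cast_div_le
      have h3 : (N:ℝ) / g ≤ 16 * L := by
        rw [div_le_iff₀ hg0']
        have h4 : (D:ℝ) ≤ 8 * g := by exact_mod_cast hg3
        calc (N:ℝ) = 2 * L * (N / L ^ 1 / 2) := by rw [pow_one]; field_simp
          _ ≤ 2 * L * (8 * g) := mul_le_mul_of_nonneg_left (by linarith) (by positivity)
          _ = 16 * L * g := by ring
      push_cast at h2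
      linarith
    have h5 : 0 ≤ 2 * (C2 * (((2 * ρ0 + k : ℕ) : ℝ) / D) ^ c2) := by positivity
    calc _ ≤ 20 * L * (2 * (C2 * (6 / L ^ 4))) := by
          apply mul_le_mul h1 _ h5 (by positivity)
          have := mul_le_mul_of_nonneg_left b1 hC2.le
          linarith
      _ = 240 * C2 * (1 / L ^ 3) := by
          field_simp
          norm_num
      _ ≤ 120 * C2 / L := by
          have h6 : 1 / L ^ 3 ≤ 1 / (120 * L) := by
            apply one_div_le_one_div_of_le (by positivity)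
            have := hLp 2 (by norm_num)
            calc 120 * L ≤ L ^ 2 * L := mul_le_mul_of_nonneg_right this hL0.le
              _ = L ^ 3 := by ring
          have h7 : 240 * C2 * (1 / L ^ 3) ≤ 240 * C2 * (1 / (120 * L)) :=
            mul_le_mul_of_nonneg_left h6 (by positivity)
          have h8 : 240 * C2 * (1 / (120 * L)) = 2 * C2 / L := by
            field_simp
            norm_num
          have h9 : 2 * C2 / L ≤ 120 * C2 / L := by
            apply div_le_div_of_nonneg_right _ hL0.le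
            linarith
          linarith
  have p2 : PQ (1/2) (RE 0 ((n + k : ℕ) : ℤ) 0 ((n + k : ℕ) : ℤ))
      (BadS (8 * m) R ρ0 (RE 0 ((n + k : ℕ) : ℤ) 0 n)) ≤ 16 * C1 / L := by
    refine (pr_top (w := n + k) (8 * m) R ρ0).trans ?_
    exact hstrip (n + k) (by omega)
  have p3 : PQ (1/2) (RE 0 ((n + k : ℕ) : ℤ) 0 ((n + k : ℕ) : ℤ))
      (fun F => BadS (8 * m) R ρ0 (RE 0 n 0 n) (F ∩ RE 0 ((n + k : ℕ) : ℤ) 0 n)) ≤
      16 * C1 / L := by
    have hsub : RE 0 ((n + k : ℕ) : ℤ) 0 n ⊆ RE 0 ((n + k : ℕ) : ℤ) 0 ((n + k : ℕ) : ℤ) :=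
      RE_subset le_rfl le_rfl le_rfl (by push_cast; omega)
    have h1 : PQ (1/2) (RE 0 ((n + k : ℕ) : ℤ) 0 ((n + k : ℕ) : ℤ))
        (fun F => BadS (8 * m) R ρ0 (RE 0 n 0 n) (F ∩ RE 0 ((n + k : ℕ) : ℤ) 0 n)) =
        PQ (1/2) (RE 0 ((n + k : ℕ) : ℤ) 0 n)
        (fun F => BadS (8 * m) R ρ0 (RE 0 n 0 n) (F ∩ RE 0 ((n + k : ℕ) : ℤ) 0 n)) := by
      apply Pr_local hsub
      intro F _
      rw [Finset.inter_assoc, Finset.inter_self]
    rw [h1]
    have h2 : PQ (1/2) (RE 0 ((n + k : ℕ) : ℤ) 0 n)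
        (fun F => BadS (8 * m) R ρ0 (RE 0 n 0 n) (F ∩ RE 0 ((n + k : ℕ) : ℤ) 0 n)) ≤
        PQ (1/2) (RE 0 ((n + k : ℕ) : ℤ) 0 n) (BadS (8 * m) R ρ0 (RE 0 n 0 n)) := by
      apply Pr_mono ok
      intro F hF hB
      rw [Finset.inter_eq_left.2 hF] at hB
      exact hB
    exact h2.trans ((pr_right (w := n) (8 * m) R ρ0).trans (hstrip n (by omega)))
  have p4 : PQ (1/2) (RE 0 ((n + k : ℕ) : ℤ) 0 ((n + k : ℕ) : ℤ))
      (RunnerUp (n + k) (8 * ((8 * m : ℕ) : ℝ))) ≤ 65 * C3 / L := by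
    have h1 := (hgap (n + k) (64 * m / N) (by omega) (by positivity)).2.2.2.1
    rw [prob_eq] at h1
    have e : 64 * (m:ℝ) / N * ((n + k : ℕ) : ℝ) = 8 * ((8 * m : ℕ) : ℝ) := by
      rw [← hN]
      push_cast
      field_simp
      norm_num
    rw [e] at h1
    refine h1.trans ?_
    have h2 : 64 * (m:ℝ) / N + 1 / ((n + k : ℕ) : ℝ) ≤ 65 / L ^ (p * 1) := by
      rw [← hN, mul_one]
      have h3 : (m:ℝ) / N ≤ 1 / L ^ p := by
        rw [div_le_div_iff₀ hN0 (by positivity), one_mul]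
        have h4 := hmon p e3 (by rw [e23, he2]; nlinarith)
        calc (m:ℝ) * L ^ p ≤ (N / L ^ p) * L ^ p :=
              mul_le_mul_of_nonneg_right (by linarith) (by positivity)
          _ = N := by field_simp
      have h5 : 1 / (N:ℝ) ≤ m / N := by
        apply div_le_div_of_nonneg_right _ hN0.le
        exact_mod_cast (show 1 ≤ m by omega)
      calc 64 * (m:ℝ) / N + 1 / N = 64 * (m / N) + 1 / N := by ring
        _ ≤ 65 * (1 / L ^ p) := by linarith
        _ = 65 / L ^ p := by ring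
    have h6 := pow_bd (a := 65) (q := 1) (c' := c3) hL1 hc0 hcl hcc3 hpc (by norm_num) (by
      rw [div_le_one (by positivity), mul_one]
      have := hLp p hp1
      linarith) (by positivity) h2
    rw [mul_one] at h6
    have h7 := inv3 4 (by norm_num)
    calc C3 * (64 * (m:ℝ) / N + 1 / ((n + k : ℕ) : ℝ)) ^ c3 ≤ C3 * (65 / L ^ 4) :=
          mul_le_mul_of_nonneg_left h6 hC3.le
      _ = 65 * C3 * (1 / L ^ 4) := by ring
      _ ≤ 65 * C3 * (1 / L) := mul_le_mul_of_nonneg_left h7 (by positivity)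
      _ = 65 * C3 / L := by ring
  have p5 : PQ (1/2) (RE 0 ((n + k : ℕ) : ℤ) 0 ((n + k : ℕ) : ℤ))
      (fun F => ∃ v, Largest (n + k) F v ∧ diam F v < 4 * (D:ℝ)) ≤ 24 / L := by
    have h1 := small_largest (n := n + k) (ρ := 4 / L) (by omega) (by positivity) (by
      rw [div_le_div_iff₀ hL0 (by norm_num)]
      linarith) (by
      rw [← hN]
      have := hge 1 o1
      rw [pow_one] at this
      calc (1:ℝ) ≤ N / L := this
        _ ≤ 4 * (N / L) := by linarith [show (0:ℝ) ≤ N / L by positivity]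
        _ = 4 / L * N := by ring)
    rw [prob_eq] at h1
    refine le_trans (Pr_mono ok ?_) (h1.trans (le_of_eq (by ring)))
    rintro F _ ⟨v, hv, hd⟩
    refine ⟨v, hv, lt_of_lt_of_le hd ?_⟩
    rw [← hN]
    rw [pow_one] at D1
    have h2 : 4 / L * (N:ℝ) = 4 * (N / L) := by ring
    rw [h2]
    linarith
  -- conclusion
  have hall : PQ (1/2) (RE 0 ((n + k : ℕ) : ℤ) 0 ((n + k : ℕ) : ℤ)) (Sep n k (54 / L)) ≤
      120 * C2 / L + (16 * C1 / L + (16 * C1 / L + (65 * C3 / L + 24 / L))) := by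
    refine le_trans ?_ (add_le_add p1 (add_le_add p2 (add_le_add p3 (add_le_add p4 p5))))
    refine le_trans ?_ (add_le_add le_rfl (add_le_add le_rfl (add_le_add le_rfl
      (Pr_or_le ok _ _ _))))
    refine le_trans ?_ (add_le_add le_rfl (add_le_add le_rfl (Pr_or_le ok _ _ _)))
    refine le_trans ?_ (add_le_add le_rfl (Pr_or_le ok _ _ _))
    refine le_trans ?_ (Pr_or_le ok _ _ _)
    apply Pr_mono ok
    rintro F hF ⟨v, w, hv, hw, hnear⟩
    by_contra hcon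
    push Not at hcon
    obtain ⟨q1, q2, q3, q4, q5⟩ := hcon
    apply hnear
    have hn1 := near_boxes hF hk hg1 (ρ := 8 * m) (by omega) (by omega) (R := R) (ρ0 := ρ0)
      (g := g) (D := D) (by omega) (by omega) (by omega) q1 q2 q3 hv hw q4 (q5 v hv) (n + k)
    have hG0 : F ∩ RE 0 n 0 n ⊆ RE 0 n 0 n := Finset.inter_subset_right
    have hnn : 1 ≤ n := by omega
    have hn2 := near_scale (N := n + k) hnn (Nat.le_add_right n k) hG0 hw.1
    refine (Near2.of_near hn1 hn2).mono ?_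
    rw [max_eq_right (by omega : 8 * m ≤ R)]
    have hn0 : (0:ℝ) < n := by exact_mod_cast hnn
    have i1 : (R:ℝ) / N ≤ 1 / L := by
      rw [div_le_div_iff₀ hN0 hL0, one_mul]
      have h4 := hmon 1 e2 (by omega)
      rw [pow_one] at h4
      calc (R:ℝ) * L ≤ (N / L) * L := mul_le_mul_of_nonneg_right (by linarith) hL0.le
        _ = N := by field_simp
    have i2 : (k:ℝ) / N ≤ 1 / L := by
      have : (k:ℝ) ≤ R := hmr (by omega)
      exact (div_le_div_of_nonneg_right this hN0.le).trans i1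
    have i3 : 1 / (N:ℝ) ≤ k / N := div_le_div_of_nonneg_right hk1 hN0.le
    have i4 : 1 / (n:ℝ) ≤ 2 / N := by
      rw [div_le_div_iff₀ hn0 hN0, one_mul]
      have : (N:ℝ) ≤ 2 * n := by
        have : N ≤ 2 * n := by omega
        exact_mod_cast this
      exact this
    have e5 : ((n + k : ℕ) : ℝ) = N := by rw [hN]
    rw [e5]
    have e6 : (N:ℝ) - n = k := by rw [hN]; push_cast; ring
    rw [e6]
    calc 12 * ((R:ℝ) + 3) / N + (2 * (k:ℝ) / N + 2 / n)
        = 12 * (R / N) + 36 * (1 / N) + 2 * (k / N) + 2 * (1 / n) := by ring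
      _ ≤ 54 * (1 / L) := by
          have : 2 * (1 / (n:ℝ)) ≤ 4 * (1 / N) := by
            calc 2 * (1 / (n:ℝ)) ≤ 2 * (2 / N) := by linarith
              _ = 4 * (1 / N) := by ring
          linarith
      _ = 54 / L := by ring
  refine hall.trans (le_of_eq ?_)
  ring

end Pool.Agent.H950.SV
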