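import Pool.Agent.H950.SV.Piece
import Pool.Agent.H950.AD.Id

/-!
The outer boundaries of a cluster and of a cluster with more edges next to the boundary of the
domain.
-/

set_option autoImplicit false

namespace Pool.Agent.H950.SV

open H974 H12S H389NS H984N H984P H342P H443B Finset
open H342T (IsTrace poly)
open H342L (Curve cdist pt)
open Pool.Agent.H950.AD
open Pool.Agent.N116.EW (s1 s2 ae_s1 s1_ne_s2 nxt_insert sd_comm' sd_tri sd_self' sd_nxt sd_mv
  sd_face sd_face_rt En)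

variable {F G : Finset Edg} {u : Vtx} {n : ℕ}

/-- **The outer boundaries of the two clusters of a vertex are close as curves.** -/
theorem close_loops' (hFG : F ⊆ G) {ρ : ℕ}
    (hpc : ∀ {a : St} {N N' m : ℕ} {p q : ℕ → ℕ}, a ∈ MM F G u → Lm F G u a N N' m p q →
      ∀ i < m, (∀ k, p i ≤ k → k ≤ p (i + 1) →
        sd (orb (↑F : Set Edg) a (p i)).1 (orb (↑F : Set Edg) a k).1 ≤ ρ + 3) ∧
        (∀ k, q i ≤ k → k ≤ q (i + 1) →
        sd (orb (↑F : Set Edg) a (p i)).1 (orb (↑G : Set Edg) a k).1 ≤ ρ + 3))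
    {a0 : St} (h0 : a0 ∈ MM F G u) :
    (∀ c, IsTrace n G u c → ∃ c', IsTrace n F u c' ∧
      cdist c.path c'.path ≤ 6 * ((ρ : ℝ) + 3) / n) ∧
    (∀ c, IsTrace n F u c → ∃ c', IsTrace n G u c' ∧
      cdist c.path c'.path ≤ 6 * ((ρ : ℝ) + 3) / n) := by
  have hr : (0 : ℝ) ≤ 2 * ((ρ : ℝ) + 3) / n := by positivity
  have hr3 : 3 * (2 * ((ρ : ℝ) + 3) / n) = 6 * ((ρ : ℝ) + 3) / n := by ring
  have per_uniq : ∀ (H : Finset Edg) (a : St) (N N' : ℕ), Per (nxt (↑H : Set Edg)) a N →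
      Per (nxt (↑H : Set Edg)) a N' → N = N' := by
    intro H a N N' hN hN'
    rcases lt_trichotomy N N' with h | h | h
    · exact absurd hN.2.1 (hN'.2.2 N hN.1 h)
    · exact h
    · exact absurd hN'.2.1 (hN.2.2 N' hN'.1 h)
  -- the period does not depend on the starting point
  have per_shift : ∀ (H : Finset Edg) (a : St) (s N : ℕ), Per (nxt (↑H : Set Edg)) a N →
      Per (nxt (↑H : Set Edg)) (orb (↑H : Set Edg) a s) N := by
    intro H a s N hN
    have hc : ∀ j, (nxt (↑H : Set Edg))^[j] (orb (↑H : Set Edg) a s) =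
        (nxt (↑H : Set Edg))^[s] ((nxt (↑H : Set Edg))^[j] a) := by
      intro j
      show (nxt (↑H : Set Edg))^[j] ((nxt (↑H : Set Edg))^[s] a) = _
      rw [← Function.iterate_add_apply, ← Function.iterate_add_apply, Nat.add_comm]
    refine ⟨hN.1, ?_, ?_⟩
    · rw [hc, hN.2.1]; rfl
    · intro j hj hjN h
      rw [hc] at h
      exact hN.2.2 j hj hjN (((nxt_bij _).1.iterate s) h)
  have hpt : ∀ (v w : Vtx), sd v w ≤ ρ + 3 → dist (pt n v) (pt n w) ≤ 2 * ((ρ : ℝ) + 3) / n := by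
    intro v w h
    refine (dist_pt n v w).trans ?_
    apply div_le_div_of_nonneg_right _ (Nat.cast_nonneg n)
    have h' : ((sd v w : ℤ) : ℝ) ≤ (ρ : ℝ) + 3 := by exact_mod_cast h
    linarith
  constructor
  · rintro c ⟨σ, N1, hN1, hσ1, hσ2, hσ3, hσ4, hc⟩
    have hσ : σ ∈ MM G G u := MM_plain.2 ⟨hσ1, hσ2⟩
    obtain ⟨a, ha, s0, hs, hs0⟩ := last_common hFG (Finset.Subset.refl G) h0 hσ
    obtain ⟨N, hN⟩ := exists_per F a
    obtain ⟨M, hM⟩ := exists_per G a
    have hNM : N1 = M := by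
      have h1 := per_shift G a s0 M hM
      rw [hs] at h1
      exact per_uniq G σ N1 M ⟨hN1, hσ3, hσ4⟩ h1
    obtain ⟨m, p, q, hL⟩ := loops hFG ha hN hM
    have hp := hpc ha hL
    have haF := MM_sub (Finset.Subset.refl F) hFG ha
    rw [MM_plain] at haF
    have hm : 0 < m := by
      rcases Nat.eq_zero_or_pos m with h | h
      · have h1 := hL.a0
        have h2 := hL.am
        have h3 := hN.1
        rw [h] at h2
        omega
      · exact h
    refine ⟨⟨poly (fun j => pt n (orb (↑F : Set Edg) a j).1) N⟩,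
      ⟨a, N, hN.1, haF.1, haF.2, hN.2.1, hN.2.2, rfl⟩, ?_⟩
    have hsq : s0 < q 1 := by
      by_contra hcon
      push Not at hcon
      have h1 := hL.bi 0 hm
      rw [hL.b0, zero_add] at h1
      have h2 := hL.mem 1 (by omega)
      rw [hL.eq 1 (by omega)] at h2
      exact hs0 _ h1 hcon h2
    obtain ⟨φ, hφ⟩ := wrap (X := fun k => pt n (orb (↑G : Set Edg) a k).1)
      (Y := fun k => pt n (orb (↑F : Set Edg) a k).1)
      (Z := fun i => pt n (orb (↑F : Set Edg) a (p i)).1) hM.1 hN.1 hL.b0 hL.a0 hL.bm hL.am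
      hL.bi hL.ai hr hsq
      (by
        intro k
        show pt n (orb (↑G : Set Edg) a (M + k)).1 = pt n (orb (↑G : Set Edg) a k).1
        rw [Nat.add_comm, orb_add]
        have : orb (↑G : Set Edg) a M = a := hM.2.1
        rw [this])
      (by
        show pt n (orb (↑F : Set Edg) a (p 0)).1 = pt n (orb (↑G : Set Edg) a 0).1
        rw [hL.a0]; rfl)
      (by
        show pt n (orb (↑F : Set Edg) a N).1 = pt n (orb (↑G : Set Edg) a 0).1
        have : orb (↑F : Set Edg) a N = a := hN.2.1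
        rw [this]; rfl)
      (fun i hi k h1 h2 => hpt _ _ ((hp i hi).2 k h1 h2))
      (fun i hi k h1 h2 => hpt _ _ ((hp i hi).1 k h1 h2))
    rw [hr3] at hφ
    refine Pool.Agent.N116.EW.cdist_le_of (by positivity) φ ?_
    intro s
    have e1 : c.path = pl M (fun k => pt n (orb (↑G : Set Edg) a (s0 + k)).1) := by
      rw [hc, poly_eq, hNM]
      congr 1
      funext k
      rw [Nat.add_comm, orb_add, hs]
    rw [e1]
    show dist _ ((poly (fun j => pt n (orb (↑F : Set Edg) a j).1) N) (φ s)) ≤ _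
    rw [poly_eq]
    exact hφ s
  · rintro c ⟨σ, N1, hN1, hσ1, hσ2, hσ3, hσ4, hc⟩
    have hσ : σ ∈ MM F F u := MM_plain.2 ⟨hσ1, hσ2⟩
    obtain ⟨a, ha, s0, hs, hs0⟩ := last_common (Finset.Subset.refl F) hFG h0 hσ
    obtain ⟨N, hN⟩ := exists_per F a
    obtain ⟨M, hM⟩ := exists_per G a
    have hNM : N1 = N := by
      have h1 := per_shift F a s0 N hN
      rw [hs] at h1
      exact per_uniq F σ N1 N ⟨hN1, hσ3, hσ4⟩ h1
    obtain ⟨m, p, q, hL⟩ := loops hFG ha hN hM
    have hp := hpc ha hL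
    have haG := MM_sub hFG (Finset.Subset.refl G) ha
    rw [MM_plain] at haG
    have hm : 0 < m := by
      rcases Nat.eq_zero_or_pos m with h | h
      · have h1 := hL.a0
        have h2 := hL.am
        have h3 := hN.1
        rw [h] at h2
        omega
      · exact h
    refine ⟨⟨poly (fun j => pt n (orb (↑G : Set Edg) a j).1) M⟩,
      ⟨a, M, hM.1, haG.1, haG.2, hM.2.1, hM.2.2, rfl⟩, ?_⟩
    have hsq : s0 < p 1 := by
      by_contra hcon
      push Not at hcon
      have h1 := hL.ai 0 hm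
      rw [hL.a0, zero_add] at h1
      exact hs0 _ h1 hcon (hL.mem 1 (by omega))
    obtain ⟨φ, hφ⟩ := wrap (X := fun k => pt n (orb (↑F : Set Edg) a k).1)
      (Y := fun k => pt n (orb (↑G : Set Edg) a k).1)
      (Z := fun i => pt n (orb (↑F : Set Edg) a (p i)).1) hN.1 hM.1 hL.a0 hL.b0 hL.am hL.bm
      hL.ai hL.bi hr hsq
      (by
        intro k
        show pt n (orb (↑F : Set Edg) a (N + k)).1 = pt n (orb (↑F : Set Edg) a k).1
        rw [Nat.add_comm, orb_add]
        have : orb (↑F : Set Edg) a N = a := hN.2.1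
        rw [this])
      (by
        show pt n (orb (↑F : Set Edg) a (p 0)).1 = pt n (orb (↑F : Set Edg) a 0).1
        rw [hL.a0])
      (by
        show pt n (orb (↑G : Set Edg) a M).1 = pt n (orb (↑F : Set Edg) a 0).1
        have : orb (↑G : Set Edg) a M = a := hM.2.1
        rw [this]; rfl)
      (fun i hi k h1 h2 => hpt _ _ ((hp i hi).1 k h1 h2))
      (fun i hi k h1 h2 => hpt _ _ ((hp i hi).2 k h1 h2))
    rw [hr3] at hφ
    refine Pool.Agent.N116.EW.cdist_le_of (by positivity) φ ?_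
    intro s
    have e1 : c.path = pl N (fun k => pt n (orb (↑F : Set Edg) a (s0 + k)).1) := by
      rw [hc, poly_eq, hNM]
      congr 1
      funext k
      rw [Nat.add_comm, orb_add, hs]
    rw [e1]
    show dist _ ((poly (fun j => pt n (orb (↑G : Set Edg) a j).1) M) (φ s)) ≤ _
    rw [poly_eq]
    exact hφ s

/-- **The outer boundaries of the cluster of a vertex in the two domains.** -/
theorem near_strip {N : ℕ} (hG : G ⊆ RE 0 N 0 N) (hu : inR 0 N 0 N u) (hFG : F ⊆ G) {ρ R : ℕ}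
    (hρ : 1 ≤ ρ) (hV : NV ρ F G u) (hC : LC ρ R F G u) (hS : Lv F G u) {c d : Vtx}
    (hc : c ∈ CV F u) (hd : d ∈ CV F u) (hcd : 2 * (ρ : ℤ) ≤ sd c d) :
    Near n (6 * (((max ρ R : ℕ) : ℝ) + 3) / n) G u F u := by
  obtain ⟨a, ha⟩ := exists_MM hG hu hV (CV_mono hFG hc) (CV_mono hFG hd) hcd
  refine close_loops' hFG ?_ ha
  intro a N0 N' m p q ha hL i hi
  refine ⟨fun k h1 h2 => exc_low hρ hG hFG hV hC hS ha hL hi h1 h2, fun k h1 h2 => ?_⟩
  have haG := MM_sub hFG (Finset.Subset.refl G) ha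
  have h3 := hL.eq i hi.le
  have h4 := exc_G hρ hV haG (hL.bi i hi) (by rw [← h3]; exact hL.mem i hi.le) (hL.gb i hi) h1 h2
  rw [h3]
  push_cast
  omega

end Pool.Agent.H950.SV
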