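import Pool.Agent.H950.SV.Symm

/-!
The clusters of largest diameter in two boxes, and their outer boundaries.
-/

set_option autoImplicit false

namespace Pool.Agent.H950.SV

open H974 H12S H389NS H984N H984P H342P H443B Finset
open Pool.Agent.H950.AD
open H342P.Plain (Largest sqDist cluster clusterEdges mem_cluster edges edges_eq)
open Pool.Agent.Results.MP_6bd702_pr.DiameterGaps (diam diam_greatest RunnerUp diam_eq)
open Pool.Agent.N116.EW (sd_comm' sd_tri sd_self' sd_nxt sd_mv sd_face sd_face_rt En)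

variable {F : Finset Edg} {u : Vtx} {n k : ℕ}

theorem edge_in {a b c d : ℤ} {g : Edg} (h1 : inR a b c d (src g)) (h2 : inR a b c d (tgt g)) :
    g ∈ RE a b c d := by
  obtain ⟨x, y, _ | _⟩ := g
  · unfold inR at h1 h2
    simp only [src_mk, tgt_false] at h1 h2
    rw [mem_RE_false]
    omega
  · unfold inR at h1 h2
    simp only [src_mk, tgt_true] at h1 h2
    rw [mem_RE_true]
    omega

theorem cv_in {a b c d : ℤ} {x y : Vtx} (hx : x ∈ CV (F ∩ RE a b c d) u)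
    (hy : y ∈ CV (F ∩ RE a b c d) u) (hxy : 0 < sd x y) : inR a b c d x := by
  have h1 : Reach (↑(F ∩ RE a b c d) : Set Edg) y x := by
    have h2 : Reach (↑(F ∩ RE a b c d) : Set Edg) u x := hx
    have h3 : Reach (↑(F ∩ RE a b c d) : Set Edg) u y := hy
    exact h3.symm.trans h2
  refine rect_reach (fun g hg => ?_) h1 ?_
  · exact (Finset.mem_inter.1 (show g ∈ F ∩ RE a b c d by exact_mod_cast hg)).2
  · rintro rfl
    rw [sd_self'] at hxy
    exact lt_irrefl _ hxy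

/-- Flipped edges leave the cluster. -/
theorem lv_of {a b c d : ℤ} {ρ0 : ℕ} (h0 : 1 ≤ ρ0)
    (hfar : ∀ x ∈ CV (F ∩ RE a b c d) u, ∃ y ∈ CV (F ∩ RE a b c d) u, (ρ0 : ℤ) ≤ sd x y) :
    Lv (F ∩ RE a b c d) F u := by
  intro e he heF x v hE hx hv
  obtain ⟨x', hx', hxx⟩ := hfar x hx
  obtain ⟨v', hv', hvv⟩ := hfar v hv
  have h1 := cv_in hx hx' (by omega)
  have h2 := cv_in hv hv' (by omega)
  apply heF
  refine Finset.mem_inter.2 ⟨he, ?_⟩
  rcases hE with ⟨h3, h4⟩ | ⟨h3, h4⟩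
  · rw [h3] at h1; rw [h4] at h2; exact edge_in h1 h2
  · rw [h3] at h1; rw [h4] at h2; exact edge_in h2 h1

/-- The consequences for one step. -/
theorem one_step {N : ℕ} {a b c d : ℤ} {ρ R ρ0 : ℕ} (hF : F ⊆ RE 0 N 0 N) (hρ : 1 ≤ ρ)
    (hρ0 : ρ ≤ ρ0) (hB : ¬ BadS ρ R ρ0 (RE a b c d) F) (hu : inR 0 N 0 N u) {y z : Vtx}
    (hy : y ∈ CV (F ∩ RE a b c d) u) (hz : z ∈ CV (F ∩ RE a b c d) u)
    (hyz : 2 * (ρ0 : ℤ) ≤ sd y z) :
    (∀ x ∈ CV F u, ∃ x' ∈ CV (F ∩ RE a b c d) u, sd x x' ≤ ρ) ∧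
    ∀ n : ℕ, Near n (6 * (((max ρ R : ℕ) : ℝ) + 3) / n) F u (F ∩ RE a b c d) u := by
  have hfar := far_vertex (ρ := ρ0) hy hz hyz
  have hV : NV ρ (F ∩ RE a b c d) F u := by
    by_contra h
    exact hB ⟨u, hfar, Or.inl h⟩
  have hL : LC ρ R (F ∩ RE a b c d) F u := by
    by_contra h
    exact hB ⟨u, hfar, Or.inr h⟩
  refine ⟨?_, fun n => ?_⟩
  · intro x hx
    by_cases hxC : x ∈ CV (F ∩ RE a b c d) u
    · exact ⟨x, hxC, by rw [sd_self']; positivity⟩
    · have h1 : Reach (↑F : Set Edg) u x := hx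
      obtain ⟨e, he, x', v', hE, hx', hv', hr⟩ := last_exit' (A := CV (F ∩ RE a b c d) u) h1
        (Reach.refl _ _) hxC
      have he' : e ∈ F := by exact_mod_cast he
      have heF : e ∉ F ∩ RE a b c d := by
        intro h2
        apply hv'
        have h3 : Reach (↑(F ∩ RE a b c d) : Set Edg) u x' := hx'
        exact h3.trans (En_adj hE (by exact_mod_cast h2)).reach
      have h2 := hV e he' heF x' v' hE hx' hv' x (hr.mono (by
        rintro g ⟨h3, h4⟩
        exact ⟨by exact_mod_cast h3, h4⟩))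
      have h3 := sd_tri x v' x'
      have h4 := sd_En hE
      rw [sd_comm' x v', sd_comm' v' x'] at h3
      exact ⟨x', hx', by omega⟩
  · exact near_strip hF hu Finset.inter_subset_left hρ hV hL (lv_of (by omega) hfar) hy hz
      (by omega)

/-- A path visits the vertical lines between its ends. -/
theorem visit_line {H : Set Edg} {a b : Vtx} (h : Reach H a b) {t : ℤ} (h1 : a.1 ≤ t)
    (h2 : t ≤ b.1) : ∃ p, p.1 = t ∧ Reach H a p := by
  have key : ∀ z, Reach H a z → (∃ p, p.1 = t ∧ Reach H a p) ∨ z.1 < t := by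
    intro z hz
    induction hz with
    | refl =>
      rcases lt_or_eq_of_le h1 with h3 | h3
      · exact Or.inr h3
      · exact Or.inl ⟨a, h3, Reach.refl _ _⟩
    | @tail z z' hz hs ih =>
      rcases ih with h3 | h3
      · exact Or.inl h3
      · obtain ⟨e, he, hE⟩ := adj_En hs
        have h4 := sd_En hE
        unfold sd at h4
        have h5 := (max_le_iff.1 h4).1
        rw [abs_le] at h5
        rcases lt_or_ge z'.1 t with h6 | h6
        · exact Or.inr h6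
        · exact Or.inl ⟨z', by omega, Reach.trans hz (En_adj hE he).reach⟩
  rcases key b h with h3 | h3
  · exact h3
  · omega

theorem visit_row {H : Set Edg} {a b : Vtx} (h : Reach H a b) {t : ℤ} (h1 : a.2 ≤ t)
    (h2 : t ≤ b.2) : ∃ p, p.2 = t ∧ Reach H a p := by
  have key : ∀ z, Reach H a z → (∃ p, p.2 = t ∧ Reach H a p) ∨ z.2 < t := by
    intro z hz
    induction hz with
    | refl =>
      rcases lt_or_eq_of_le h1 with h3 | h3
      · exact Or.inr h3
      · exact Or.inl ⟨a, h3, Reach.refl _ _⟩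
    | @tail z z' hz hs ih =>
      rcases ih with h3 | h3
      · exact Or.inl h3
      · obtain ⟨e, he, hE⟩ := adj_En hs
        have h4 := sd_En hE
        unfold sd at h4
        have h5 := (max_le_iff.1 h4).2
        rw [abs_le] at h5
        rcases lt_or_ge z'.2 t with h6 | h6
        · exact Or.inr h6
        · exact Or.inl ⟨z', by omega, Reach.trans hz (En_adj hE he).reach⟩
  rcases key b h with h3 | h3
  · exact h3
  · omega

/-- There is a long path next to the strips. -/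
def LongS (n k ρ0 g D : ℕ) (F : Finset Edg) : Prop :=
  ∃ j ∈ Finset.range ((n + k) / g + 2), Crs ((j : ℤ) * g) n (2 * ρ0 + k) D (↑F : Set Edg) ∨
    Crs n ((j : ℤ) * g) (2 * ρ0 + k) D (↑F : Set Edg)

/-- A large cluster contains a large cluster of the smaller box. -/
theorem large_sub (hF : F ⊆ RE 0 ((n + k : ℕ) : ℤ) 0 ((n + k : ℕ) : ℤ)) {ρ0 g D : ℕ}
    (hk : 1 ≤ k) (hg : 1 ≤ g)
    (hD : 2 * g + k + 4 * ρ0 ≤ 2 * D) (hD2 : g ≤ D) {a b : Vtx} (hab : Reach (↑F : Set Edg) a b)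
    (hsd : 2 * (D : ℤ) ≤ sd a b) (hlong : ¬ LongS n k ρ0 g D F) :
    ∃ c d, Reach (↑F : Set Edg) a c ∧ Reach (↑(F ∩ RE 0 n 0 n) : Set Edg) c d ∧
      2 * (ρ0 : ℤ) ≤ sd c d := by
  by_contra hno
  push Not at hno
  have hgz : (0 : ℤ) < g := by exact_mod_cast hg
  have hboxF : ∀ x y : Vtx, Reach (↑F : Set Edg) x y → x ≠ y →
      inR 0 ((n + k : ℕ) : ℤ) 0 ((n + k : ℕ) : ℤ) y := by
    intro x y hxy hne
    exact rect_reach (fun e he => hF (by exact_mod_cast he)) hxy hne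
  -- all the vertices are close to the strips
  have hnear : ∀ z, Reach (↑F : Set Edg) a z → (n : ℤ) - 2 * ρ0 < z.1 ∨ (n : ℤ) - 2 * ρ0 < z.2 := by
    intro z hz
    have hout : ∃ y, Reach (↑F : Set Edg) z y ∧ y ∉ CV (F ∩ RE 0 n 0 n) z := by
      by_contra hcon
      push Not at hcon
      have h1 := hno z a hz (hcon a hz.symm)
      have h2 := hno z b hz (hcon b (hz.symm.trans hab))
      have h3 := sd_tri a z b
      rw [sd_comm' a z] at h3
      omega
    obtain ⟨y, hy1, hy2⟩ := hout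
    obtain ⟨e, he, x, v, hE, hx, hv, -⟩ := last_exit' (A := CV (F ∩ RE 0 n 0 n) z) hy1
      (Reach.refl _ _) hy2
    have he' : e ∈ F := by exact_mod_cast he
    have heF : e ∉ RE 0 (n : ℤ) 0 n := by
      intro h2
      apply hv
      have h3 : Reach (↑(F ∩ RE 0 n 0 n) : Set Edg) z x := hx
      have hmem : e ∈ F ∩ RE 0 n 0 n := Finset.mem_inter.2 ⟨he', h2⟩
      exact h3.trans (En_adj hE (by exact_mod_cast hmem)).reach
    have h3 := hno z x hz hx
    have h4 := sd_En hE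
    have h5 := rect_edge (hF he')
    have h6 : ¬ (inR 0 n 0 n x ∧ inR 0 n 0 n v) := by
      rintro ⟨h7, h8⟩
      apply heF
      rcases hE with ⟨h9, h10⟩ | ⟨h9, h10⟩
      · rw [h9] at h7; rw [h10] at h8; exact edge_in h7 h8
      · rw [h9] at h7; rw [h10] at h8; exact edge_in h8 h7
    have h7 : inR 0 ((n + k : ℕ) : ℤ) 0 ((n + k : ℕ) : ℤ) x ∧
        inR 0 ((n + k : ℕ) : ℤ) 0 ((n + k : ℕ) : ℤ) v := by
      rcases hE with ⟨h9, h10⟩ | ⟨h9, h10⟩
      · rw [h9, h10]; exact h5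
      · rw [h9, h10]; exact ⟨h5.2, h5.1⟩
    unfold inR at h6 h7
    unfold sd at h3 h4
    rw [max_lt_iff, abs_lt, abs_lt] at h3
    rw [max_le_iff, abs_le, abs_le] at h4
    omega
  -- the coordinates
  have hab0 : a ≠ b := by
    rintro rfl
    rw [sd_self'] at hsd
    omega
  have hab2 := hboxF a b hab hab0
  have hab1 := hboxF b a hab.symm (Ne.symm hab0)
  unfold inR at hab1 hab2
  push_cast at hab1 hab2
  have hj : ∀ x : ℤ, 0 ≤ x → x ≤ n + k → ∃ j ∈ Finset.range ((n + k) / g + 2),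
      x < (j : ℤ) * g ∧ (j : ℤ) * g ≤ x + g := by
    intro x hx0 hx1
    obtain ⟨j, hj⟩ : ∃ j : ℕ, (j : ℤ) = x / g := ⟨(x / g).toNat, by
      rw [Int.toNat_of_nonneg (Int.ediv_nonneg hx0 hgz.le)]⟩
    have hj1 : (j : ℤ) * g ≤ x := by
      rw [hj]
      exact Int.ediv_mul_le _ (by omega)
    have hj2 : x < (j : ℤ) * g + g := by
      rw [hj]
      have := Int.lt_ediv_add_one_mul_self x hgz
      rw [add_mul, one_mul] at this
      exact this
    refine ⟨j + 1, ?_, ?_, ?_⟩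
    · have h1 : j ≤ (n + k) / g := by
        rw [Nat.le_div_iff_mul_le (by omega)]
        have : (j : ℤ) * g ≤ n + k := hj1.trans hx1
        exact_mod_cast this
      rw [Finset.mem_range]
      omega
    · push_cast
      rw [add_mul, one_mul]
      exact hj2
    · push_cast
      rw [add_mul, one_mul]
      omega
  have main1 : ∀ a' b' : Vtx, Reach (↑F : Set Edg) a a' → Reach (↑F : Set Edg) a' b' →
      0 ≤ a'.1 → b'.1 ≤ n + k → a'.1 + 2 * D ≤ b'.1 → False := by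
    intro a' b' h1 h2 h3 h4 h5
    obtain ⟨j, hj0, hj1, hj2⟩ := hj a'.1 h3 (by omega)
    obtain ⟨p, hp1, hp2⟩ := visit_line h2 (t := (j : ℤ) * g) (by omega) (by omega)
    have hp3 := hnear p (h1.trans hp2)
    have hpne : p ≠ b' := by
      rintro rfl
      omega
    have hp4 := hboxF b' p (h2.symm.trans hp2) (Ne.symm hpne)
    unfold inR at hp4
    push_cast at hp4
    apply hlong
    refine ⟨j, hj0, Or.inl ⟨p, b', ?_, ?_, hp2.symm.trans h2⟩⟩
    · unfold inR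
      push_cast
      omega
    · omega
  have main2 : ∀ a' b' : Vtx, Reach (↑F : Set Edg) a a' → Reach (↑F : Set Edg) a' b' →
      0 ≤ a'.2 → b'.2 ≤ n + k → a'.2 + 2 * D ≤ b'.2 → False := by
    intro a' b' h1 h2 h3 h4 h5
    obtain ⟨j, hj0, hj1, hj2⟩ := hj a'.2 h3 (by omega)
    obtain ⟨p, hp1, hp2⟩ := visit_row h2 (t := (j : ℤ) * g) (by omega) (by omega)
    have hp3 := hnear p (h1.trans hp2)
    have hpne : p ≠ b' := by
      rintro rfl
      omega
    have hp4 := hboxF b' p (h2.symm.trans hp2) (Ne.symm hpne)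
    unfold inR at hp4
    push_cast at hp4
    apply hlong
    refine ⟨j, hj0, Or.inr ⟨p, b', ?_, ?_, hp2.symm.trans h2⟩⟩
    · unfold inR
      push_cast
      omega
    · omega
  unfold sd at hsd
  rcases le_max_iff.1 hsd with h1 | h1
  · rcases le_abs.1 h1 with h2 | h2
    · exact main1 b a hab hab.symm (by omega) (by omega) (by omega)
    · exact main1 a b (Reach.refl _ _) hab (by omega) (by omega) (by omega)
  · rcases le_abs.1 h1 with h2 | h2
    · exact main2 b a hab hab.symm (by omega) (by omega) (by omega)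
    · exact main2 a b (Reach.refl _ _) hab (by omega) (by omega) (by omega)

/-- **The outer boundaries of the largest clusters in the two boxes.** -/
theorem near_boxes (hF : F ⊆ RE 0 ((n + k : ℕ) : ℤ) 0 ((n + k : ℕ) : ℤ)) {ρ R ρ0 g D : ℕ}
    (hk : 1 ≤ k) (hg : 1 ≤ g) (hρ : 1 ≤ ρ) (hρ0 : ρ ≤ ρ0)
    (hD : 2 * g + k + 4 * ρ0 ≤ 2 * D) (hD2 : g ≤ D) (hDρ : 4 * ρ + 2 * ρ0 ≤ 2 * D)
    (hlong : ¬ LongS n k ρ0 g D F)
    (hB1 : ¬ BadS ρ R ρ0 (RE 0 ((n + k : ℕ) : ℤ) 0 n) F)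
    (hB2 : ¬ BadS ρ R ρ0 (RE 0 n 0 n) (F ∩ RE 0 ((n + k : ℕ) : ℤ) 0 n))
    {v w : Vtx} (hv : Largest (n + k) F v) (hw : Largest n (F ∩ RE 0 n 0 n) w)
    (hrun : ¬ RunnerUp (n + k) (8 * ρ) F) (hbig : 4 * (D : ℝ) ≤ diam F v) (n' : ℕ) :
    Near n' (12 * (((max ρ R : ℕ) : ℝ) + 3) / n') F v (F ∩ RE 0 n 0 n) w := by
  have hFe : F ⊆ edges (n + k) := by rw [edges_eq]; exact hF
  have hF0e : F ∩ RE 0 n 0 n ⊆ edges n := by rw [edges_eq]; exact Finset.inter_subset_right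
  have hρ' : (1 : ℝ) ≤ ρ := by exact_mod_cast hρ
  have hF' : F ∩ RE 0 ((n + k : ℕ) : ℤ) 0 n ⊆ RE 0 ((n + k : ℕ) : ℤ) 0 ((n + k : ℕ) : ℤ) :=
    Finset.inter_subset_left.trans hF
  have hE' : (RE 0 (n:ℤ) 0 n) ⊆ RE 0 ((n + k : ℕ) : ℤ) 0 n :=
    RE_subset le_rfl (by push_cast; omega) le_rfl le_rfl
  have hFF : F ∩ RE 0 ((n + k : ℕ) : ℤ) 0 n ∩ RE 0 n 0 n = F ∩ RE 0 n 0 n := by
    rw [Finset.inter_assoc, Finset.inter_eq_right.2 hE']
  -- two steps
  have two : ∀ u y z, y ∈ CV (F ∩ RE 0 n 0 n) u → z ∈ CV (F ∩ RE 0 n 0 n) u →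
      2 * (ρ0 : ℤ) ≤ sd y z → (∀ x ∈ CV F u, ∃ x' ∈ CV (F ∩ RE 0 n 0 n) u, sd x x' ≤ 2 * ρ) ∧
      Near n' (12 * (((max ρ R : ℕ) : ℝ) + 3) / n') F u (F ∩ RE 0 n 0 n) u := by
    intro u y z hy hz hyz
    have hu : inR 0 ((n + k : ℕ) : ℤ) 0 ((n + k : ℕ) : ℤ) u := by
      have h1 : inR 0 (n : ℤ) 0 n u := by
        rcases (show 0 < sd u y ∨ 0 < sd u z by
          have := sd_tri y u z
          rw [sd_comm' y u] at this
          omega) with h2 | h2
        · exact cv_in (Reach.refl _ _) hy h2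
        · exact cv_in (Reach.refl _ _) hz h2
      unfold inR at h1 ⊢
      push_cast
      omega
    have hsub : CV (F ∩ RE 0 n 0 n) u ⊆ CV (F ∩ RE 0 ((n + k : ℕ) : ℤ) 0 n) u :=
      CV_mono (by rw [← hFF]; exact Finset.inter_subset_left)
    obtain ⟨s1, s2⟩ := one_step hF hρ hρ0 hB1 hu (hsub hy) (hsub hz) hyz
    obtain ⟨t1, t2⟩ := one_step hF' hρ hρ0 hB2 hu (y := y) (z := z) (by rw [hFF]; exact hy)
      (by rw [hFF]; exact hz) hyz
    rw [hFF] at t1 t2
    refine ⟨?_, ?_⟩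
    · intro x hx
      obtain ⟨x', h1, h2⟩ := s1 x hx
      obtain ⟨x'', h3, h4⟩ := t1 x' h1
      have := sd_tri x x' x''
      exact ⟨x'', h3, by omega⟩
    · refine ((s2 n').trans (t2 n')).mono (le_of_eq ?_)
      ring
  -- the largest cluster
  obtain ⟨⟨a, ha, b, hb, hab⟩, hmax⟩ := diam_greatest hFe hv.1
  rw [← diam_eq hFe hv.1] at hab hmax
  have hab0 : diam F v = ed a b := hab
  have hab' : Reach (↑F : Set Edg) a b := by
    rw [mem_cluster] at ha hb
    exact ha.symm.trans hb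
  have hsd : 2 * (D : ℤ) ≤ sd a b := by
    have k1 := ed_le a b
    have k2 : 2 * (D : ℝ) ≤ ((sd a b : ℤ) : ℝ) := by linarith
    exact_mod_cast k2
  obtain ⟨c, d, hac, hcd, hcds⟩ := large_sub hF hk hg hD hD2 hab' hsd hlong
  obtain ⟨p1, -⟩ := two c c d (Reach.refl _ _) hcd hcds
  obtain ⟨a1, ha1, haa⟩ := p1 a hac.symm
  obtain ⟨b1, hb1, hbb⟩ := p1 b (hac.symm.trans hab')
  have hed1 : ed a b ≤ ed a1 b1 + 8 * ρ := by
    have k1 := ed_tri a a1 b
    have k2 := ed_tri a1 b1 b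
    have k3 := ed_le a a1
    have k4 := ed_le b b1
    rw [ed_comm b1 b] at k2
    have k5 : ((sd a a1 : ℤ) : ℝ) ≤ 2 * ρ := by exact_mod_cast haa
    have k6 : ((sd b b1 : ℤ) : ℝ) ≤ 2 * ρ := by exact_mod_cast hbb
    linarith
  -- the largest cluster of the small box
  have h1' : Reach (↑(F ∩ RE 0 n 0 n) : Set Edg) a1 b1 := by
    have h2 : Reach (↑(F ∩ RE 0 n 0 n) : Set Edg) c a1 := ha1
    have h3 : Reach (↑(F ∩ RE 0 n 0 n) : Set Edg) c b1 := hb1
    exact h2.symm.trans h3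
  have hDr : 4 * (ρ:ℝ) + 2 * ρ0 ≤ 2 * D := by exact_mod_cast hDρ
  have hed0 : ∀ x y : Vtx, 0 < ed x y → x ≠ y := by
    rintro x y h rfl
    rw [ed_eq, dist_self] at h
    exact lt_irrefl _ h
  have hρ0' : (ρ:ℝ) ≤ ρ0 := by exact_mod_cast hρ0
  have hne1 : a1 ≠ b1 := hed0 a1 b1 (by linarith)
  have hin : ∀ x y : Vtx, Reach (↑(F ∩ RE 0 n 0 n) : Set Edg) x y → x ≠ y →
      y ∈ Plain.box n := by
    intro x y hxy hne
    refine mem_of_inR (rect_reach (fun e he => ?_) hxy hne)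
    exact (Finset.mem_inter.1 (show e ∈ F ∩ RE 0 n 0 n by exact_mod_cast he)).2
  obtain ⟨hwb, a2, ha2, b2, hb2, hmaxw⟩ := hw
  have hed2 : ed a1 b1 ≤ ed a2 b2 := by
    apply Real.sqrt_le_sqrt
    have := hmaxw a1 (hin b1 a1 h1'.symm (Ne.symm hne1)) b1 (hin a1 b1 h1' hne1)
      ((mem_cluster _ _ _).2 h1')
    exact_mod_cast this
  rw [mem_cluster] at ha2 hb2
  have hsub0 : (↑(F ∩ RE 0 n 0 n) : Set Edg) ⊆ ↑F := by exact_mod_cast Finset.inter_subset_left
  -- it is contained in the largest cluster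
  have hwv : w ∈ cluster F v := by
    by_contra hcon
    have hwb' : w ∈ Plain.box (n + k) := by
      have := inR_of_mem hwb
      apply mem_of_inR
      unfold inR at this ⊢
      push_cast
      omega
    apply hrun
    refine ⟨v, hv, w, hwb', hcon, ?_⟩
    obtain ⟨-, hmx⟩ := diam_greatest hFe hwb'
    rw [← diam_eq hFe hwb'] at hmx
    have k1 : ed a2 b2 ≤ diam F w := hmx ⟨a2, (mem_cluster _ _ _).2 (ha2.mono hsub0), b2,
      (mem_cluster _ _ _).2 (hb2.mono hsub0), rfl⟩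
    linarith
  have hsd2 : 2 * (ρ0 : ℤ) ≤ sd a2 b2 := by
    have k1 := ed_le a2 b2
    have k2 : 2 * (ρ0 : ℝ) ≤ ((sd a2 b2 : ℤ) : ℝ) := by linarith
    exact_mod_cast k2
  obtain ⟨-, p2⟩ := two w a2 b2 ha2 hb2 hsd2
  exact p2.base hwv (self_cluster _ _)

end Pool.Agent.H950.SV
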