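import Pool.Agent.H950.AD.Far
import Pool.Graph.R_seed8.H342R3.Pin.BRI

/-!
Excursions of the lower interface are enclosed by excursions of the upper one and local connections.
-/

set_option autoImplicit false

namespace Pool.Agent.H950.SV

open H974 H12S H389NS H984N H984P H342P H443B Finset
open Pool.Agent.H950.AD
open Pool.Agent.N116.EW (s1 s2 ae_s1 s1_ne_s2 nxt_insert sd_comm' sd_tri sd_self' sd_nxt sd_mv
  sd_face sd_face_rt En)

variable {F G : Finset Edg} {u : Vtx} {n : ℕ}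

/-- Ends of flipped edges which are close are locally connected. -/
def LC (ρ R : ℕ) (F G : Finset Edg) (u : Vtx) : Prop :=
  ∀ e ∈ G, e ∉ F → ∀ e' ∈ G, e' ∉ F → ∀ x v x' v' : Vtx, En e x v → En e' x' v' →
    x ∈ CV F u → x' ∈ CV F u → sd x x' ≤ ρ + 2 →
    Reach {g | g ∈ F ∧ sd x (src g) ≤ R ∧ sd x (tgt g) ≤ R} x' x

/-- Flipped edges leave the cluster. -/
def Lv (F G : Finset Edg) (u : Vtx) : Prop :=
  ∀ e ∈ G, e ∉ F → ∀ x v : Vtx, En e x v → x ∈ CV F u → v ∉ CV F u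

/-- Faces outside of a box. -/
theorem out_col {a b : ℤ} {Z : Set Edg} (hZ : ∀ g ∈ Z, a ≤ (src g).1 ∧ (tgt g).1 ≤ b) {x : ℤ}
    (hx : x < a ∨ b ≤ x) (y y' : ℤ) : DReach Zᶜ (x, y) (x, y') := by
  have key : ∀ y y' : ℤ, y ≤ y' → DReach Zᶜ (x, y') (x, y) := by
    intro y y' h
    obtain ⟨k, hk⟩ := Int.eq_ofNat_of_zero_le (sub_nonneg.mpr h)
    have e : y' = y + k := by omega
    rw [e]
    refine P17.dcol _ x y k ?_
    intro i _ _ h3
    have h4 := hZ _ h3
    simp only [src_mk, tgt_true] at h4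
    omega
  rcases le_total y y' with h | h
  · exact (key y y' h).symm
  · exact key y' y h

theorem out_row {c d : ℤ} {Z : Set Edg} (hZ : ∀ g ∈ Z, c ≤ (src g).2 ∧ (tgt g).2 ≤ d) {y : ℤ}
    (hy : y < c ∨ d ≤ y) (x x' : ℤ) : DReach Zᶜ (x, y) (x', y) := by
  have key : ∀ x x' : ℤ, x ≤ x' → DReach Zᶜ (x', y) (x, y) := by
    intro x x' h
    obtain ⟨k, hk⟩ := Int.eq_ofNat_of_zero_le (sub_nonneg.mpr h)
    have e : x' = x + k := by omega
    rw [e]
    refine P17.drow _ y x k ?_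
    intro i _ _ h3
    have h4 := hZ _ h3
    simp only [src_mk, tgt_false] at h4
    omega
  rcases le_total x x' with h | h
  · exact (key x x' h).symm
  · exact key x' x h

theorem out_face {a b c d : ℤ} (ha : 0 ≤ a) (hc : 0 ≤ c) {Z : Set Edg}
    (hZ : ∀ g ∈ Z, a ≤ (src g).1 ∧ (tgt g).1 ≤ b) (hZ' : ∀ g ∈ Z, c ≤ (src g).2 ∧ (tgt g).2 ≤ d)
    {x y : ℤ} (h : (x < a ∨ b ≤ x) ∨ (y < c ∨ d ≤ y)) : DReach Zᶜ (x, y) (-1, -1) := by
  rcases h with h | h
  · exact (out_col hZ h y (-1)).trans (out_row hZ' (Or.inl (by omega)) x (-1))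
  · exact (out_row hZ' h x (-1)).trans (out_col hZ (Or.inl (by omega)) y (-1))

theorem st_cases {σ : St} {e : Edg} (h : ae σ = e) : σ = s1 e ∨ σ = s2 e := by
  subst h
  obtain ⟨⟨x, y⟩, d⟩ := σ
  cases d <;> simp [ae, s1, s2]

/-- The state reached along an open edge from its other end. -/
theorem mv_other {σ τ : St} (h : ae σ = ae τ) (hne : σ ≠ τ) : mv τ = rt σ := by
  obtain ⟨e, he⟩ : ∃ e, e = ae τ := ⟨_, rfl⟩
  rw [← he] at h
  rcases st_cases h with h1 | h1 <;> rcases st_cases he.symm with h2 | h2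
  · exact absurd (h1.trans h2.symm) hne
  · rw [h1, h2, Pool.Agent.N116.EW.mv_s2]
  · rw [h1, h2, Pool.Agent.N116.EW.mv_s1]
  · exact absurd (h1.trans h2.symm) hne

/-- **Excursions of the lower orbit are enclosed.** -/
theorem exc_low {ρ R : ℕ} (hρ : 1 ≤ ρ) (hG : G ⊆ RE 0 n 0 n) (hFG : F ⊆ G) (hV : NV ρ F G u)
    (hC : LC ρ R F G u) (hS : Lv F G u) {a : St} (ha : a ∈ MM F G u) {N N' m : ℕ} {p q : ℕ → ℕ}
    (h : Lm F G u a N N' m p q) {i : ℕ} (hi : i < m) {k : ℕ} (hk1 : p i ≤ k)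
    (hk2 : k ≤ p (i + 1)) :
    sd (orb (↑F : Set Edg) a (p i)).1 (orb (↑F : Set Edg) a k).1 ≤ ((max ρ R : ℕ) : ℤ) + 3 := by
  have haF := MM_sub (Finset.Subset.refl F) hFG ha
  have haG := MM_sub hFG (Finset.Subset.refl G) ha
  obtain ⟨σ, hσ⟩ : ∃ σ, σ = orb (↑F : Set Edg) a (p i) := ⟨_, rfl⟩
  have hσM : σ ∈ MM F G u := by rw [hσ]; exact h.mem i hi.le
  have hσG : orb (↑G : Set Edg) a (q i) = σ := by rw [hσ]; exact (h.eq i hi.le).symm
  have hpi := h.ai i hi
  have hqi := h.bi i hi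
  obtain ⟨M, hM⟩ : ∃ M : ℤ, M = ((max ρ R : ℕ) : ℤ) + 1 := ⟨_, rfl⟩
  have hM0 : 1 ≤ M := by rw [hM]; omega
  have hMρ : (ρ : ℤ) + 1 ≤ M := by rw [hM]; push_cast; omega
  have hMR : (R : ℤ) ≤ M := by rw [hM]; push_cast; omega
  rw [← hσ]
  by_cases hnext : orb (↑F : Set Edg) a (p i + 1) ∈ MM F G u
  · -- one step
    have hp1 : p (i + 1) = p i + 1 := by
      by_contra hne
      exact h.ga i hi (p i + 1) (by omega) (by omega) hnext
    rcases Nat.eq_or_lt_of_le hk1 with rfl | hk1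
    · rw [← hσ, sd_self']; positivity
    · have : k = p i + 1 := by omega
      rw [this, orb_succ, ← hσ]
      have := sd_nxt (↑F : Set Edg) σ
      omega
  -- the examined edge is flipped
  rw [orb_succ, ← hσ] at hnext
  have hcl : ae σ ∉ (↑F : Set Edg) := by
    intro hc
    apply hnext
    rw [nxt_open hc]
    refine ⟨?_, by rw [p2_face_mv]; exact hσM.2⟩
    have hr : Reach (↑F : Set Edg) u σ.1 := hσM.1
    exact hr.trans (Adj.reach ⟨ae σ, hc, p2_ends _⟩)
  have hcl' : ae σ ∉ F := by exact_mod_cast hcl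
  rw [nxt_closed hcl] at hnext
  have heG : ae σ ∈ G := by
    by_contra hc
    apply hnext
    refine ⟨by rw [p2_rt_fst]; exact hσM.1, ?_⟩
    exact OF_step (e := ae σ) (fun h => hc (by exact_mod_cast h.1)) (p2_dends _) hσM.2
  have hrt : face (rt σ) ∉ OF G u := by
    intro hc
    exact hnext ⟨by rw [p2_rt_fst]; exact hσM.1, hc⟩
  have hEσ : En (ae σ) σ.1 (mv σ).1 := by
    rcases p2_ends σ with ⟨e1, e2⟩ | ⟨e1, e2⟩
    · exact Or.inl ⟨e1.symm, e2.symm⟩
    · exact Or.inr ⟨e2.symm, e1.symm⟩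
  have hvC : (mv σ).1 ∉ CV F u := hS _ heG hcl' _ _ hEσ hσM.1
  have hGnext : orb (↑G : Set Edg) a (q i + 1) = mv σ := by
    rw [orb_succ, hσG, nxt_open (by exact_mod_cast heG)]
  -- the upper piece
  have hoffG : ∀ j, q i < j → j < q (i + 1) → (orb (↑G : Set Edg) a j).1 ∉ CV F u := by
    intro j hj1 hj2 hj3
    exact h.gb i hi j hj1 hj2 ⟨hj3, (orb_MM haG j).2⟩
  have hq2 : q i + 1 < q (i + 1) := by
    rcases Nat.lt_or_ge (q i + 1) (q (i + 1)) with h1 | h1
    · exact h1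
    · exfalso
      have h2 : q (i + 1) = q i + 1 := by omega
      have h3 := h.mem (i + 1) hi
      rw [h.eq (i + 1) hi, h2, hGnext] at h3
      exact hvC h3.1
  obtain ⟨σ', hσ'⟩ : ∃ σ', σ' = orb (↑G : Set Edg) a (q (i + 1)) := ⟨_, rfl⟩
  have hσ'M : σ' ∈ MM F G u := by rw [hσ', ← h.eq (i + 1) hi]; exact h.mem (i + 1) hi
  obtain ⟨L, hL⟩ : ∃ L, q (i + 1) = L + 1 := ⟨q (i + 1) - 1, by omega⟩
  obtain ⟨τ, hτ⟩ : ∃ τ, τ = orb (↑G : Set Edg) a L := ⟨_, rfl⟩
  have hτC : τ.1 ∉ CV F u := by rw [hτ]; exact hoffG L (by omega) (by omega)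
  have hτσ' : nxt (↑G : Set Edg) τ = σ' := by rw [hσ', hL, orb_succ, hτ]
  have hτG : ae τ ∈ (↑G : Set Edg) := by
    by_contra hc
    rw [nxt_closed hc] at hτσ'
    apply hτC
    have := hσ'M.1
    rw [← hτσ', p2_rt_fst] at this
    exact this
  rw [nxt_open hτG] at hτσ'
  have hEτ : En (ae τ) σ'.1 τ.1 := by
    rw [← hτσ']
    rcases p2_ends τ with ⟨e1, e2⟩ | ⟨e1, e2⟩
    · exact Or.inr ⟨e2.symm, e1.symm⟩
    · exact Or.inl ⟨e1.symm, e2.symm⟩
  have hτF : ae τ ∉ F := by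
    intro hc
    apply hτC
    have h1 : Reach (↑F : Set Edg) u σ'.1 := hσ'M.1
    exact h1.trans (En_adj hEτ (by exact_mod_cast hc)).reach
  have hne : ae σ ≠ ae τ := by
    intro hcon
    apply hnext
    have h1 : σ ≠ τ := by
      intro h2
      apply hτC
      rw [← h2]
      exact hσM.1
    rw [← mv_other hcon h1, hτσ']
    exact hσ'M
  -- distances
  have hdG : ∀ j, q i ≤ j → j ≤ q (i + 1) → sd σ.1 (orb (↑G : Set Edg) a j).1 ≤ ρ + 1 := by
    intro j hj1 hj2
    have := exc_G hρ hV haG hqi (by rw [hσG]; exact hσM) (h.gb i hi) hj1 hj2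
    rw [hσG] at this
    exact this
  -- the closed curve
  obtain ⟨Z, hZ⟩ : ∃ Z : Set Edg, Z = {g | (g ∈ G ∧ ∃ j, q i ≤ j ∧ j < q (i + 1) ∧
      g = ae (orb (↑G : Set Edg) a j)) ∨ (g ∈ F ∧ src g ∈ CV F u ∧ sd σ.1 (src g) ≤ R ∧
      sd σ.1 (tgt g) ≤ R)} := ⟨_, rfl⟩
  have hends : ∀ j, ae (orb (↑G : Set Edg) a j) ∈ G → ∀ z,
      (z = src (ae (orb (↑G : Set Edg) a j)) ∨ z = tgt (ae (orb (↑G : Set Edg) a j))) →
      z = (orb (↑G : Set Edg) a j).1 ∨ z = (orb (↑G : Set Edg) a (j + 1)).1 := by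
    intro j hj z hz
    rw [orb_succ, nxt_open (by exact_mod_cast hj)]
    rcases p2_ends (orb (↑G : Set Edg) a j) with ⟨e1, e2⟩ | ⟨e1, e2⟩
    · rw [← e1, ← e2]; exact hz
    · rw [← e1, ← e2]; exact hz.symm
  have hZE : Z ⊆ EC (↑G : Set Edg) u := by
    rw [hZ]
    rintro g (⟨h1, j, h2, h3, h4⟩ | ⟨h1, h2, -, -⟩)
    · refine ⟨by exact_mod_cast h1, ?_⟩
      rw [h4] at h1 ⊢
      rcases hends j h1 _ (Or.inl rfl) with h5 | h5
      · rw [h5]; exact (orb_MM haG j).1
      · rw [h5]; exact (orb_MM haG (j + 1)).1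
    · exact ⟨by exact_mod_cast hFG h1, CV_mono hFG h2⟩
  have hZM : ∀ g ∈ Z, sd σ.1 (src g) ≤ M ∧ sd σ.1 (tgt g) ≤ M := by
    rw [hZ]
    rintro g (⟨h1, j, h2, h3, h4⟩ | ⟨h1, -, h2, h3⟩)
    · rw [h4] at h1 ⊢
      have k1 := hdG j h2 (by omega)
      have k2 := hdG (j + 1) (by omega) (by omega)
      constructor
      · rcases hends j h1 _ (Or.inl rfl) with h5 | h5 <;> rw [h5] <;> omega
      · rcases hends j h1 _ (Or.inr rfl) with h5 | h5 <;> rw [h5] <;> omega
    · omega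
  have hZG : ∀ g ∈ Z, g ∈ G := by
    intro g hg
    have := (hZE hg).1
    exact_mod_cast this
  -- the circuit
  have heZ : ae σ ∈ Z := by
    rw [hZ]
    exact Or.inl ⟨heG, q i, le_rfl, hqi, by rw [hσG]⟩
  have hxe : ∀ g : Edg, (∀ x, (x = src g ∨ x = tgt g) → x ∉ CV F u) → g ≠ ae σ := by
    rintro g hg rfl
    rcases hEσ with ⟨e1, -⟩ | ⟨e1, -⟩
    · exact hg _ (Or.inl e1) hσM.1
    · exact hg _ (Or.inr e1) hσM.1
  have hU : ∀ t, q i + 1 + t < q (i + 1) →
      Reach (Z \ {ae σ}) (mv σ).1 (orb (↑G : Set Edg) a (q i + 1 + t)).1 := by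
    intro t
    induction t with
    | zero =>
      intro _
      rw [add_zero, hGnext]
      exact Reach.refl _ _
    | succ t ih =>
      intro ht
      have h1 := ih (by omega)
      rw [← add_assoc, orb_succ]
      by_cases hc : ae (orb (↑G : Set Edg) a (q i + 1 + t)) ∈ (↑G : Set Edg)
      · rw [nxt_open hc]
        have hc' : ae (orb (↑G : Set Edg) a (q i + 1 + t)) ∈ G := by exact_mod_cast hc
        refine h1.trans (Adj.reach ⟨ae (orb (↑G : Set Edg) a (q i + 1 + t)), ⟨?_, ?_⟩, p2_ends _⟩)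
        · rw [hZ]
          exact Or.inl ⟨hc', _, by omega, by omega, rfl⟩
        · apply hxe
          intro x hx
          rcases hends _ hc' x hx with h5 | h5
          · rw [h5]; exact hoffG _ (by omega) (by omega)
          · rw [h5]; exact hoffG _ (by omega) (by omega)
      · rw [nxt_closed hc, p2_rt_fst]
        exact h1
  have hcirc : Reach (Z \ {ae σ}) (mv σ).1 σ.1 := by
    have r1 := hU (L - (q i + 1)) (by omega)
    rw [show q i + 1 + (L - (q i + 1)) = L by omega, ← hτ] at r1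
    have r2 : Reach (Z \ {ae σ}) τ.1 σ'.1 := by
      have hmem : ae τ ∈ Z \ {ae σ} := by
        refine ⟨?_, fun h1 => hne h1.symm⟩
        rw [hZ]
        exact Or.inl ⟨by exact_mod_cast hτG, L, by omega, by omega, by rw [hτ]⟩
      exact (En_adj hEτ hmem).reach.symm
    have r3 := hC (ae σ) heG hcl' (ae τ) (by exact_mod_cast hτG) hτF σ.1 (mv σ).1 σ'.1 τ.1 hEσ hEτ
      hσM.1 hσ'M.1 (by
        have := hdG (q (i + 1)) hqi.le le_rfl
        rw [← hσ'] at this
        omega)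
    have r4 : Reach (Z \ {ae σ}) σ'.1 σ.1 := by
      have key : ∀ z, Reach {g | g ∈ F ∧ sd σ.1 (src g) ≤ R ∧ sd σ.1 (tgt g) ≤ R} σ'.1 z →
          z ∈ CV F u ∧ Reach (Z \ {ae σ}) σ'.1 z := by
        intro z hz
        induction hz with
        | refl => exact ⟨hσ'M.1, Reach.refl _ _⟩
        | @tail w z _ hs ih =>
          obtain ⟨g, ⟨hg1, hg2, hg3⟩, hE⟩ := adj_En hs
          have hw : Reach (↑F : Set Edg) u w := ih.1
          have hz' : Reach (↑F : Set Edg) u z := hw.trans (En_adj hE (by exact_mod_cast hg1)).reach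
          have hmem : g ∈ Z \ {ae σ} := by
            refine ⟨?_, ?_⟩
            · rw [hZ]
              refine Or.inr ⟨hg1, ?_, hg2, hg3⟩
              rcases hE with ⟨e1, -⟩ | ⟨-, e1⟩
              · rw [← e1]; exact ih.1
              · rw [← e1]; exact hz'
            · intro h1
              apply hcl'
              rw [← h1]
              exact hg1
          exact ⟨hz', ih.2.trans (En_adj hE hmem).reach⟩
      exact (key _ r3).2
    exact r1.trans (r2.trans r4)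
  have hnotO : ¬ DReach Zᶜ (face (rt σ)) (-1, -1) := by
    intro hcon
    have h1 : DReach Zᶜ (face σ) (-1, -1) := by
      have h2 : DReach (EC (↑G : Set Edg) u)ᶜ (face σ) (-1, -1) := hσM.2
      exact h2.mono (Set.compl_subset_compl.2 hZE)
    have h3 : DReach Zᶜ (face σ) (face (rt σ)) := h1.trans hcon.symm
    have h4 : DReach Zᶜ (dsrc (ae σ)) (dtgt (ae σ)) := by
      rcases p2_dends σ with ⟨e1, e2⟩ | ⟨e1, e2⟩
      · rw [e1, e2]; exact h3
      · rw [e1, e2]; exact h3.symm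
    have h5 := H342N.t_BRI Z (ae σ) heZ h4
    apply h5
    rcases p2_ends σ with ⟨e1, e2⟩ | ⟨e1, e2⟩
    · rw [e1, e2]; exact hcirc.symm
    · rw [e1, e2]; exact hcirc
  -- the lower piece
  have hoffF : ∀ j, p i < j → j < p (i + 1) → face (orb (↑F : Set Edg) a j) ∉ OF G u := by
    intro j hj1 hj2 hj3
    exact h.ga i hi j hj1 hj2 ⟨(orb_MM haF j).1, hj3⟩
  have hZout : ∀ g ∈ Z, g ∉ F → dsrc g ∈ OF G u ∨ dtgt g ∈ OF G u := by
    rw [hZ]
    rintro g (⟨h1, j, h2, h3, h4⟩ | ⟨h1, -, -, -⟩) hgF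
    · have h5 := (orb_MM haG j).2
      rw [h4]
      rcases p2_dends (orb (↑G : Set Edg) a j) with ⟨e1, e2⟩ | ⟨e1, e2⟩
      · rw [e1]; exact Or.inl h5
      · rw [e2]; exact Or.inr h5
    · exact absurd h1 hgF
  have hch : ∀ t, p i + 1 + t < p (i + 1) →
      DReach Zᶜ (face (rt σ)) (face (orb (↑F : Set Edg) a (p i + 1 + t))) := by
    intro t
    induction t with
    | zero =>
      intro _
      rw [add_zero, orb_succ, ← hσ, nxt_closed hcl]
      exact DReach.refl _ _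
    | succ t ih =>
      intro ht
      have h1 := ih (by omega)
      have u1 := hoffF (p i + 1 + t) (by omega) (by omega)
      have u2 := hoffF (p i + 1 + (t + 1)) (by omega) (by omega)
      rw [← add_assoc, orb_succ] at u2 ⊢
      by_cases hc : ae (orb (↑F : Set Edg) a (p i + 1 + t)) ∈ (↑F : Set Edg)
      · rw [nxt_open hc, p2_face_mv]
        exact h1
      · rw [nxt_closed hc] at u2 ⊢
        refine h1.trans (DAdj.reach ⟨ae (orb (↑F : Set Edg) a (p i + 1 + t)), ?_, p2_dends _⟩)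
        intro hgZ
        rcases hZout _ hgZ (by exact_mod_cast hc) with h2 | h2 <;>
          rcases p2_dends (orb (↑F : Set Edg) a (p i + 1 + t)) with ⟨e1, e2⟩ | ⟨e1, e2⟩
        · rw [e1] at h2; exact u1 h2
        · rw [e1] at h2; exact u2 h2
        · rw [e2] at h2; exact u2 h2
        · rw [e2] at h2; exact u1 h2
  have hbox : ∀ j, p i < j → j < p (i + 1) → sd σ.1 (orb (↑F : Set Edg) a j).1 ≤ M + 1 := by
    intro j hj1 hj2
    have h1 := hch (j - (p i + 1)) (by omega)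
    rw [show p i + 1 + (j - (p i + 1)) = j by omega] at h1
    have h2 : ¬ DReach Zᶜ (face (orb (↑F : Set Edg) a j)) (-1, -1) := fun h3 =>
      hnotO (h1.trans h3)
    have h3 : sd σ.1 (face (orb (↑F : Set Edg) a j)) ≤ M := by
      by_contra hcon
      push Not at hcon
      apply h2
      obtain ⟨⟨x, y⟩, hxy⟩ : ∃ f : Vtx, f = face (orb (↑F : Set Edg) a j) := ⟨_, rfl⟩
      rw [← hxy] at hcon ⊢
      have hfar : x < σ.1.1 - M ∨ σ.1.1 + M < x ∨ y < σ.1.2 - M ∨ σ.1.2 + M < y := by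
        by_contra hno
        push Not at hno
        have h4 : sd σ.1 (x, y) ≤ M := by
          unfold sd
          apply max_le <;> rw [abs_le] <;> constructor <;> simp only <;> omega
        omega
      refine out_face (a := max 0 (σ.1.1 - M)) (b := σ.1.1 + M) (c := max 0 (σ.1.2 - M))
        (d := σ.1.2 + M) (le_max_left _ _) (le_max_left _ _) ?_ ?_ (by omega)
      · intro g hg
        have k1 := hZM g hg
        have k2 := pb_edge hG (hZG g hg)
        unfold inR at k2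
        unfold sd at k1
        have k3 := k1.1.trans' (le_max_left _ _)
        have k4 := k1.2.trans' (le_max_left _ _)
        rw [abs_le] at k3 k4
        constructor
        · apply max_le <;> omega
        · omega
      · intro g hg
        have k1 := hZM g hg
        have k2 := pb_edge hG (hZG g hg)
        unfold inR at k2
        unfold sd at k1
        have k3 := k1.1.trans' (le_max_right _ _)
        have k4 := k1.2.trans' (le_max_right _ _)
        rw [abs_le] at k3 k4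
        constructor
        · apply max_le <;> omega
        · omega
    have h4 := sd_tri σ.1 (face (orb (↑F : Set Edg) a j)) (orb (↑F : Set Edg) a j).1
    have h5 := sd_face (orb (↑F : Set Edg) a j)
    rw [sd_comm'] at h5
    omega
  have hkey : ∀ j, p i ≤ j → j < p (i + 1) → sd σ.1 (orb (↑F : Set Edg) a j).1 ≤ M + 1 := by
    intro j hj1 hj2
    rcases Nat.eq_or_lt_of_le hj1 with rfl | hj1
    · rw [← hσ, sd_self']; omega
    · exact hbox j hj1 hj2
  rcases Nat.eq_or_lt_of_le hk2 with rfl | hlt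
  · obtain ⟨k', hk'⟩ : ∃ k', p (i + 1) = k' + 1 := ⟨p (i + 1) - 1, by omega⟩
    rw [hk']
    have h1 := hkey k' (by omega) (by omega)
    have h2 := sd_tri σ.1 (orb (↑F : Set Edg) a k').1 (orb (↑F : Set Edg) a (k' + 1)).1
    have h3 := sd_nxt (↑F : Set Edg) (orb (↑F : Set Edg) a k')
    rw [← orb_succ] at h3
    omega
  · have := hkey k hk1 hlt
    omega

end Pool.Agent.H950.SV
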