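import Pool.Agent.H950.SV.Win
import Pool.Agent.H950.NT.Expl

/-!
The probability of an additional path next to an extreme point of a local cluster.
-/

set_option autoImplicit false

namespace Pool.Agent.H950.SV

open H974 H12S H389NS H984N H984P H342P H443B Finset
open H973S (rim Om Tg pr_markov coe_inter')
open Pool.Agent.H950.AD
open Pool.Agent.H950.NT (ex_arm)

variable {F G : Finset Edg} {u : Vtx} {w h k : ℕ}

theorem mem_Kb {z b : ℤ} {k m : ℕ} {F : Finset Edg} {g : Edg} : g ∈ Kb z k m b F ↔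
    g ∈ Om z k m ∧ (src g ∈ lcl z k m b F ∨ tgt g ∈ lcl z k m b F) := by
  classical
  unfold Kb
  rw [Finset.mem_filter]

/-- The local cluster is found by examining the edges of `Kb`. -/
theorem lcl_stop {z b : ℤ} {k m : ℕ} {F F' : Finset Edg}
    (hK : F ∩ Kb z k m b F = F' ∩ Kb z k m b F) : lcl z k m b F' = lcl z k m b F := by
  have hmem : ∀ g, g ∈ Om z k m → (src g ∈ lcl z k m b F ∨ tgt g ∈ lcl z k m b F) →
      (g ∈ F ↔ g ∈ F') := by
    intro g h1 h2
    have h3 : g ∈ Kb z k m b F := mem_Kb.2 ⟨h1, h2⟩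
    have h4 : g ∈ F ∩ Kb z k m b F ↔ g ∈ F' ∩ Kb z k m b F := by rw [hK]
    rw [Finset.mem_inter, Finset.mem_inter] at h4
    tauto
  ext y
  constructor
  · intro hy
    have key : ∀ y, Reach ((↑F' : Set Edg) ∩ ↑(Om z k m)) (b, (k : ℤ)) y → y ∈ lcl z k m b F := by
      intro y hy
      induction hy with
      | refl => exact Reach.refl _ _
      | @tail z' z'' _ hs ih =>
        obtain ⟨g, ⟨hg1, hg2⟩, hE⟩ := adj_En hs
        have hg2' : g ∈ Om z k m := by exact_mod_cast hg2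
        have hg3 : g ∈ F := by
          refine (hmem g hg2' ?_).2 (by exact_mod_cast hg1)
          rcases hE with ⟨h1, -⟩ | ⟨h1, -⟩
          · left; rw [← h1]; exact ih
          · right; rw [← h1]; exact ih
        have h1 : Reach ((↑F : Set Edg) ∩ ↑(Om z k m)) (b, (k : ℤ)) z' := ih
        have hm : g ∈ (↑F : Set Edg) ∩ ↑(Om z k m) := ⟨by exact_mod_cast hg3, hg2⟩
        exact h1.trans (En_adj hE hm).reach
    exact key y hy
  · intro hy
    have key : ∀ y, Reach ((↑F : Set Edg) ∩ ↑(Om z k m)) (b, (k : ℤ)) y →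
        y ∈ lcl z k m b F ∧ Reach ((↑F' : Set Edg) ∩ ↑(Om z k m)) (b, (k : ℤ)) y := by
      intro y hy
      induction hy with
      | refl => exact ⟨Reach.refl _ _, Reach.refl _ _⟩
      | @tail z' z'' _ hs ih =>
        obtain ⟨g, ⟨hg1, hg2⟩, hE⟩ := adj_En hs
        have hg2' : g ∈ Om z k m := by exact_mod_cast hg2
        have hg3 : g ∈ F' := by
          refine (hmem g hg2' ?_).1 (by exact_mod_cast hg1)
          rcases hE with ⟨h1, -⟩ | ⟨h1, -⟩
          · left; rw [← h1]; exact ih.1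
          · right; rw [← h1]; exact ih.1
        have h1 : Reach ((↑F : Set Edg) ∩ ↑(Om z k m)) (b, (k : ℤ)) z' := ih.1
        have hm : g ∈ (↑F : Set Edg) ∩ ↑(Om z k m) := ⟨hg1, hg2⟩
        have hm' : g ∈ (↑F' : Set Edg) ∩ ↑(Om z k m) := ⟨by exact_mod_cast hg3, hg2⟩
        exact ⟨h1.trans (En_adj hE hm).reach, ih.2.trans (En_adj hE hm').reach⟩
    exact (key y hy).2

theorem kb_stop {z b : ℤ} {k m : ℕ} {F F' : Finset Edg}
    (hK : F ∩ Kb z k m b F = F' ∩ Kb z k m b F) : Kb z k m b F' = Kb z k m b F := by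
  unfold Kb
  rw [lcl_stop hK]

theorem rm_stop {s z b : ℤ} {k m : ℕ} {F F' : Finset Edg}
    (hK : F ∩ Kb z k m b F = F' ∩ Kb z k m b F) (h : RM s z k m b F) : RM s z k m b F' := by
  unfold RM at h ⊢
  rw [lcl_stop hK]
  exact h

theorem lcl_inter (z b : ℤ) (k m : ℕ) (F : Finset Edg) :
    lcl z k m b (F ∩ Om z k m) = lcl z k m b F := by
  unfold lcl
  rw [coe_inter', Set.inter_assoc, Set.inter_self]

/-- The expected number of extreme points. -/
theorem rm_sum {s z : ℤ} (hs : s = 1 ∨ s = -1) {k m : ℕ} {S : Finset Edg} (hS : Om z k m ⊆ S)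
    {lam : ℝ} (hl : lam < 1)
    (hlam : PQ (1/2) (Om z k m) (fun F => Crs z k m (3 * m) ↑F) ≤ lam) :
    ∑ b ∈ Finset.Icc (z - 3 * m) (z + 3 * m), PQ (1/2) S (RM s z k m b) ≤ 2 / (1 - lam)^2 := by
  classical
  have ok := okq (q := 1/2) (by norm_num) (by norm_num)
  obtain ⟨K, hK⟩ : ∃ K : Finset Vtx, K = (Finset.Icc (z - (m:ℤ)) (z + m)) ×ˢ {(k:ℤ)} := ⟨_, rfl⟩
  have h2 : Ex (fun _ : Edg => (1/2 : ℝ)) (Om z k m)
      (fun F => ((NC src tgt K (Tg z k m) (↑F : Set Edg) : ℕ) : ℝ)^2) ≤ 2 / (1 - lam)^2 := by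
    apply NC_sq ok _ _ _ _ _ hl
    refine le_trans (Pr_mono ok ?_) hlam
    rintro F _ ⟨x, hx, b, ⟨hb1, hb2⟩, hr⟩
    rw [hK, Finset.mem_product, Finset.mem_Icc, Finset.mem_singleton] at hx
    refine ⟨x, b, ?_, ?_, hr⟩
    · unfold inR; omega
    · push_cast
      unfold inR at hb1
      omega
  refine le_trans ?_ h2
  have h3 : ∀ b ∈ Finset.Icc (z - 3 * (m:ℤ)) (z + 3 * m), PQ (1/2) S (RM s z k m b) =
      PQ (1/2) (Om z k m) (RM s z k m b) := by
    intro b _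
    apply Pr_local hS
    intro F _
    unfold RM
    rw [lcl_inter]
  rw [Finset.sum_congr rfl h3]
  unfold PQ Pr
  rw [← Ex_sum]
  apply Ex_mono ok
  intro F hF
  have h4 : ∑ b ∈ Finset.Icc (z - 3 * (m:ℤ)) (z + 3 * m), ind (RM s z k m b F) =
      (((Finset.Icc (z - 3 * (m:ℤ)) (z + 3 * m)).filter (fun b => RM s z k m b F)).card : ℝ) := by
    rw [Finset.card_filter]
    push_cast
    apply Finset.sum_congr rfl
    intro b _
    unfold ind
    split_ifs <;> rfl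
  rw [h4]
  have h5 : ((Finset.Icc (z - 3 * (m:ℤ)) (z + 3 * m)).filter (fun b => RM s z k m b F)).card ≤
      NC src tgt K (Tg z k m) (↑F : Set Edg) := by
    unfold NC
    have hFO : (↑F : Set Edg) ∩ ↑(Om z k m) = ↑F := by
      apply Set.inter_eq_left.2
      exact_mod_cast hF
    have hlc : ∀ b y, y ∈ lcl z k m b F ↔ Reach (↑F : Set Edg) (b, (k:ℤ)) y := by
      intro b y
      unfold lcl
      rw [hFO]
      exact Iff.rfl
    apply Finset.card_le_card_of_injOn (fun b : ℤ => clu src tgt (↑F : Set Edg) (b, (k:ℤ)))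
    · intro b hb
      rw [Finset.mem_coe, Finset.mem_filter] at hb
      rw [Finset.mem_coe, mem_TC]
      obtain ⟨-, ⟨y, hy1, hy2⟩, ⟨x1, hx1, hx2⟩, -⟩ := hb
      rw [hlc] at hy2 hx2
      rw [abs_le] at hx1
      refine ⟨(x1, (k:ℤ)), ?_, ⟨y, hy1, hx2.symm.trans hy2⟩, ?_⟩
      · rw [hK, Finset.mem_product, Finset.mem_Icc, Finset.mem_singleton]
        exact ⟨⟨by simp only; omega, by simp only; omega⟩, rfl⟩
      · ext y'
        exact ⟨fun h6 => hx2.trans h6, fun h6 => hx2.symm.trans h6⟩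
    · intro b hb b' hb' hbb
      rw [Finset.mem_coe, Finset.mem_filter] at hb hb'
      simp only at hbb
      have h6 : Reach (↑F : Set Edg) (b, (k:ℤ)) (b', (k:ℤ)) := by
        have : (b', (k:ℤ)) ∈ clu src tgt (↑F : Set Edg) (b, (k:ℤ)) := by
          rw [hbb]; exact GR.refl _ _
        exact this
      by_contra hne
      have hcase : s * b < s * b' ∨ s * b' < s * b := by
        rcases hs with rfl | rfl <;> omega
      rcases hcase with h7 | h7
      · exact hb.2.2.2 b' h7 ((hlc _ _).2 h6)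
      · exact hb'.2.2.2 b h7 ((hlc _ _).2 h6.symm)
  have h6 : (((Finset.Icc (z - 3 * (m:ℤ)) (z + 3 * m)).filter
      (fun b => RM s z k m b F)).card : ℝ) ≤ (NC src tgt K (Tg z k m) (↑F : Set Edg) : ℕ) := by
    exact_mod_cast h5
  refine h6.trans ?_
  exact_mod_cast Nat.le_self_pow (by norm_num) _

/-- **The probability of an additional path.** -/
theorem wev_pr : ∃ C c : ℝ, 0 < C ∧ 0 < c ∧ ∀ (s z : ℤ) (k m ρ' : ℕ) (S : Finset Edg),
    (s = 1 ∨ s = -1) → 1 ≤ k → k ≤ ρ' → 1 ≤ m → Om z k m ⊆ S →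
    PQ (1/2) S (fun F => ∃ b ∈ Finset.Icc (z - 3 * (m:ℤ)) (z + 3 * m), Wev s z k m b ρ' F) ≤
      C * ((k:ℝ) / ρ') ^ c := by
  classical
  obtain ⟨C0, c, hC0, hc, harm⟩ := ex_arm
  obtain ⟨κ, hκ, hW⟩ := win_half
  refine ⟨C0 * (2 / (κ^4)^2), c, by positivity, hc, ?_⟩
  intro s z k m ρ' S hs hk hkρ hm hS
  have ok := okq (q := 1/2) (by norm_num) (by norm_num)
  have hlam : PQ (1/2) (Om z k m) (fun F => Crs z k m (3 * m) ↑F) ≤ 1 - κ^4 := by
    have k1 := (win_blk (hW (2 * m)) hm le_rfl z k (Om z k m)).1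
    rw [PQ, Pr_not] at k1
    unfold PQ
    linarith
  have hsum := rm_sum hs hS (lam := 1 - κ^4) (by have : 0 < κ^4 := by positivity
                                                 linarith) hlam
  rw [sub_sub_cancel] at hsum
  have hβ0 : 0 ≤ C0 * ((k:ℝ) / ρ') ^ c := by positivity
  have hterm : ∀ b ∈ Finset.Icc (z - 3 * (m:ℤ)) (z + 3 * m),
      PQ (1/2) S (Wev s z k m b ρ') ≤ C0 * ((k:ℝ) / ρ') ^ c * PQ (1/2) S (RM s z k m b) := by
    intro b _
    exact pr_markov (p := fun _ : Edg => (1/2 : ℝ)) ok (S := S) (fun F => Kb z k m b F)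
      (fun F _ e he => hS (mem_Kb.1 he).1)
      (fun F F' _ _ hK => kb_stop hK)
      (RM s z k m b)
      (fun F F' _ _ hK h1 => rm_stop hK h1)
      (fun _ G => Crs b k k ρ' (↑G : Set Edg))
      (fun K _ => harm k ρ' hk hkρ b k (S \ K))
  have hun : PQ (1/2) S (fun F => ∃ b ∈ Finset.Icc (z - 3 * (m:ℤ)) (z + 3 * m),
      Wev s z k m b ρ' F) ≤ ∑ b ∈ Finset.Icc (z - 3 * (m:ℤ)) (z + 3 * m),
      PQ (1/2) S (Wev s z k m b ρ') := Pr_exists_le ok S _ _
  refine hun.trans ((Finset.sum_le_sum hterm).trans ?_)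
  rw [← Finset.mul_sum]
  calc C0 * ((k:ℝ) / ρ') ^ c * ∑ b ∈ Finset.Icc (z - 3 * (m:ℤ)) (z + 3 * m),
        PQ (1/2) S (RM s z k m b) ≤ C0 * ((k:ℝ) / ρ') ^ c * (2 / (κ^4)^2) :=
        mul_le_mul_of_nonneg_left hsum hβ0
    _ = C0 * (2 / (κ^4)^2) * ((k:ℝ) / ρ') ^ c := by ring

end Pool.Agent.H950.SV
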