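import Pool.Agent.H950.SV.Ident

/-!
The two scales.
-/

set_option autoImplicit false

namespace Pool.Agent.H950.SV

open H974 H12S H389NS H984N H984P H342P H443B Finset
open H342T (IsTrace poly)
open H342L (Curve cdist pt cdist_triangle cdist_comm)
open Pool.Agent.H950.AD
open H342P.Plain (Largest sqDist cluster clusterEdges mem_cluster edges edges_eq)
open Pool.Agent.N116.EW (sd_comm' sd_tri sd_self' sd_nxt sd_mv sd_face sd_face_rt En)

variable {F G : Finset Edg} {u v w : Vtx} {n k N : ℕ}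

/-- The tracing paths of the cluster of `v` for `F`, scaled by `1 / N`, and the ones of the cluster
of `w` for `G`, scaled by `1 / n`, are within `r` of each other. -/
def Near2 (N : ℕ) (F : Finset Edg) (v : Vtx) (n : ℕ) (G : Finset Edg) (w : Vtx) (r : ℝ) : Prop :=
  (∀ c, IsTrace N F v c → ∃ c', IsTrace n G w c' ∧ cdist c.path c'.path ≤ r) ∧
  (∀ c, IsTrace n G w c → ∃ c', IsTrace N F v c' ∧ cdist c.path c'.path ≤ r)

theorem pt_scale (hn : 1 ≤ n) (hnN : n ≤ N) {x : Vtx} (hx : inR 0 n 0 n x) :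
    dist (pt N x) (pt n x) ≤ 2 * ((N : ℝ) - n) / N := by
  have h1 : ∀ z : ℂ, ‖z‖ ≤ |z.re| + |z.im| := Complex.norm_le_abs_re_add_abs_im
  have hn0 : (0:ℝ) < n := by exact_mod_cast hn
  have hN0 : (0:ℝ) < N := by exact_mod_cast hn.trans hnN
  have hnN' : (n:ℝ) ≤ N := by exact_mod_cast hnN
  obtain ⟨⟨a1, a2⟩, b1, b2⟩ := hx
  have key : ∀ y : ℤ, 0 ≤ y → y ≤ n → |(y:ℝ) / N - y / n| ≤ ((N : ℝ) - n) / N := by
    intro y h3 h4
    have h3' : (0:ℝ) ≤ y := by exact_mod_cast h3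
    have h4' : (y:ℝ) ≤ n := by exact_mod_cast h4
    have e : (y:ℝ) / N - y / n = -(y / n * (((N:ℝ) - n) / N)) := by
      field_simp
      ring
    rw [e, abs_neg, abs_of_nonneg (by
      have : 0 ≤ ((N:ℝ) - n) / N := div_nonneg (by linarith) hN0.le
      positivity)]
    have h5 : (y:ℝ) / n ≤ 1 := by rw [div_le_one hn0]; exact h4'
    have h6 : 0 ≤ ((N:ℝ) - n) / N := div_nonneg (by linarith) hN0.le
    nlinarith
  rw [dist_eq_norm]
  refine (h1 _).trans ?_
  have e1 : (pt N x - pt n x).re = (x.1:ℝ) / N - x.1 / n := by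
    simp only [pt, Complex.sub_re]
  have e2 : (pt N x - pt n x).im = (x.2:ℝ) / N - x.2 / n := by
    simp only [pt, Complex.sub_im]
  rw [e1, e2]
  have k1 := key x.1 a1 a2
  have k2 := key x.2 b1 b2
  have e3 : 2 * ((N : ℝ) - n) / N = ((N : ℝ) - n) / N + ((N : ℝ) - n) / N := by ring
  rw [e3]
  exact add_le_add k1 k2

/-- One cluster at two scales. -/
theorem near_scale (hn : 1 ≤ n) (hnN : n ≤ N) (hG : G ⊆ RE 0 n 0 n) (hw : w ∈ Plain.box n) :
    Near2 N G w n G w (2 * ((N : ℝ) - n) / N + 2 / n) := by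
  have hn0 : (0:ℝ) < n := by exact_mod_cast hn
  have hN0 : (0:ℝ) < N := by exact_mod_cast hn.trans hnN
  have hnN' : (n:ℝ) ≤ N := by exact_mod_cast hnN
  have hr : 0 ≤ 2 * ((N : ℝ) - n) / N + 2 / n := by
    have : 0 ≤ 2 * ((N : ℝ) - n) / N := div_nonneg (by linarith) hN0.le
    positivity
  have hbox : ∀ x ∈ cluster G w, inR 0 n 0 n x := by
    intro x hx
    rw [mem_cluster] at hx
    by_cases h : w = x
    · rw [← h]; exact inR_of_mem hw
    · exact pb_box hG hx h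
  have key : ∀ (σ : St) (M : ℕ), σ.1 ∈ cluster G w → 0 < M → ∀ i < M, ∀ a b : ℕ, i ≤ a →
      a ≤ i + 1 → i ≤ b → b ≤ i + 1 →
      dist (pt N (orb (↑G : Set Edg) σ a).1) (pt n (orb (↑G : Set Edg) σ b).1) ≤
        2 * ((N : ℝ) - n) / N + 2 / n := by
    intro σ M hσ _ i _ a b h1 h2 h3 h4
    have hin : ∀ j, inR 0 n 0 n (orb (↑G : Set Edg) σ j).1 := by
      intro j
      apply hbox
      rw [mem_cluster] at hσ ⊢
      exact hσ.trans (P17.orb_vertex j)
    have k1 := pt_scale hn hnN (hin a)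
    have k2 : dist (pt n (orb (↑G : Set Edg) σ a).1) (pt n (orb (↑G : Set Edg) σ b).1) ≤
        2 / n := by
      refine (dist_pt n _ _).trans ?_
      apply div_le_div_of_nonneg_right _ hn0.le
      have h5 : sd (orb (↑G : Set Edg) σ a).1 (orb (↑G : Set Edg) σ b).1 ≤ 1 := by
        have h6 := sd_nxt (↑G : Set Edg) (orb (↑G : Set Edg) σ i)
        rw [← orb_succ] at h6
        rcases Nat.eq_or_lt_of_le h1 with rfl | h1
        · rcases Nat.eq_or_lt_of_le h3 with rfl | h3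
          · rw [sd_self']; norm_num
          · rw [show b = i + 1 by omega]; exact h6
        · rcases Nat.eq_or_lt_of_le h3 with rfl | h3
          · rw [show a = i + 1 by omega, sd_comm']; exact h6
          · rw [show a = i + 1 by omega, show b = i + 1 by omega, sd_self']; norm_num
      have h6 : ((sd (orb (↑G : Set Edg) σ a).1 (orb (↑G : Set Edg) σ b).1 : ℤ) : ℝ) ≤ 1 := by
        exact_mod_cast h5
      linarith
    exact (dist_triangle _ _ _).trans (add_le_add k1 k2)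
  constructor
  · rintro c ⟨σ, M, hM, h1, h2, h3, h4, h5⟩
    refine ⟨⟨poly (fun j => pt n (orb (↑G : Set Edg) σ j).1) M⟩, ⟨σ, M, hM, h1, h2, h3, h4, rfl⟩,
      ?_⟩
    obtain ⟨φ, hφ⟩ := Pool.Agent.N839.EW.plIso M M M (fun j => pt N (orb (↑G : Set Edg) σ j).1)
      (fun j => pt n (orb (↑G : Set Edg) σ j).1) (fun i => i) (fun i => i)
      (2 * ((N : ℝ) - n) / N + 2 / n) hM hM rfl rfl rfl rfl (fun i _ => Nat.lt_succ_self i)
      (fun i _ => Nat.lt_succ_self i)
      (fun i hi a b k1 k2 k3 k4 => key σ M h1 hM i hi a b k1 k2 k3 k4)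
    refine Pool.Agent.N116.EW.cdist_le_of hr φ ?_
    intro s
    rw [h5, poly_eq]
    show dist _ ((poly (fun j => pt n (orb (↑G : Set Edg) σ j).1) M) (φ s)) ≤ _
    rw [poly_eq]
    exact hφ s
  · rintro c ⟨σ, M, hM, h1, h2, h3, h4, h5⟩
    refine ⟨⟨poly (fun j => pt N (orb (↑G : Set Edg) σ j).1) M⟩, ⟨σ, M, hM, h1, h2, h3, h4, rfl⟩,
      ?_⟩
    obtain ⟨φ, hφ⟩ := Pool.Agent.N839.EW.plIso M M M (fun j => pt n (orb (↑G : Set Edg) σ j).1)
      (fun j => pt N (orb (↑G : Set Edg) σ j).1) (fun i => i) (fun i => i)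
      (2 * ((N : ℝ) - n) / N + 2 / n) hM hM rfl rfl rfl rfl (fun i _ => Nat.lt_succ_self i)
      (fun i _ => Nat.lt_succ_self i)
      (fun i hi a b k1 k2 k3 k4 => by
        rw [dist_comm]
        exact key σ M h1 hM i hi b a k3 k4 k1 k2)
    refine Pool.Agent.N116.EW.cdist_le_of hr φ ?_
    intro s
    rw [h5, poly_eq]
    show dist _ ((poly (fun j => pt N (orb (↑G : Set Edg) σ j).1) M) (φ s)) ≤ _
    rw [poly_eq]
    exact hφ s

theorem Near2.of_near {r s : ℝ} (h : Near N r F v G w) (h' : Near2 N G w n G w s) :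
    Near2 N F v n G w (r + s) := by
  refine ⟨fun c hc => ?_, fun c hc => ?_⟩
  · obtain ⟨c', h1, h2⟩ := h.1 c hc
    obtain ⟨c'', h3, h4⟩ := h'.1 c' h1
    exact ⟨c'', h3, (cdist_triangle _ _ _).trans (add_le_add h2 h4)⟩
  · obtain ⟨c', h1, h2⟩ := h'.2 c hc
    obtain ⟨c'', h3, h4⟩ := h.2 c' h1
    refine ⟨c'', h3, (cdist_triangle _ c'.path _).trans ?_⟩
    rw [add_comm r s]
    exact add_le_add h2 h4

theorem Near2.mono {r s : ℝ} (h : Near2 N F v n G w r) (hrs : r ≤ s) :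
    Near2 N F v n G w s := by
  refine ⟨fun c hc => ?_, fun c hc => ?_⟩
  · obtain ⟨c', h1, h2⟩ := h.1 c hc
    exact ⟨c', h1, h2.trans hrs⟩
  · obtain ⟨c', h1, h2⟩ := h.2 c hc
    exact ⟨c', h1, h2.trans hrs⟩

end Pool.Agent.H950.SV
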