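import Pool.Agent.H950.SV.Main
import Pool.Agent.H950.AD.Adv

/-!
Slow variation, all sizes.
-/

set_option autoImplicit false

namespace Pool.Agent.H950.SV

open H974 H12S H389NS H984N H984P H342P H443B Finset
open Pool.Agent.H950.AD
open H342P.Plain (Largest sqDist cluster clusterEdges mem_cluster edges edges_eq prob_eq prob)
open Pool.Agent.Results.MP_6bd702_pr.DiameterGaps (diam diam_greatest RunnerUp diam_eq
  small_largest largest_le)

/-- The outer boundaries of the largest clusters of the two boxes are not within `r`. -/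
def Sep2 (n m : ℕ) (r : ℝ) (F : Finset Edg) : Prop :=
  ∃ v w, Largest m F v ∧ Largest n (F ∩ edges n) w ∧ ¬ Near2 m F v n (F ∩ edges n) w r

theorem Sep2.anti {n m : ℕ} {r s : ℝ} {F : Finset Edg} (hrs : r ≤ s) (h : Sep2 n m s F) :
    Sep2 n m r F := by
  obtain ⟨v, w, h1, h2, h3⟩ := h
  exact ⟨v, w, h1, h2, fun h4 => h3 (h4.mono hrs)⟩

/-- **Slow variation of the outer boundary of the largest cluster.** -/
theorem slow_all : ∃ C c : ℝ, 0 < C ∧ 0 < c ∧ ∀ n m : ℕ, 1 ≤ n → n ≤ m →
    prob m (Sep2 n m (C * (((m:ℝ) - n + 1) / n) ^ c)) ≤ C * (((m:ℝ) - n + 1) / n) ^ c := by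
  obtain ⟨C1, p, hC1, hp, hlarge⟩ := slow_large
  obtain ⟨C3, c3, K3, hC3, hc3, hK3, hgap⟩ := Pool.Agent.Results.MP_6bd702_pr.DiameterGaps.result
  obtain ⟨e4, he4⟩ : ∃ e4 : ℕ, e4 = (1 + 2 * p) * (1 + p) * (1 + p) := ⟨_, rfl⟩
  have he40 : 0 < e4 := by rw [he4]; positivity
  have he4r : (0:ℝ) < e4 := by exact_mod_cast he40
  obtain ⟨c, hc⟩ : ∃ c : ℝ, c = min (1 / (e4:ℝ)) c3 := ⟨_, rfl⟩
  have hc0 : 0 < c := by rw [hc]; exact lt_min (by positivity) hc3
  have hce : c ≤ 1 / (e4:ℝ) := by rw [hc]; exact min_le_left _ _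
  have hcc3 : c ≤ c3 := by rw [hc]; exact min_le_right _ _
  refine ⟨120 + C1 + C3, c, by positivity, hc0, ?_⟩
  intro n m hn hnm
  have ok := okq (q := 1/2) (by norm_num) (by norm_num)
  have hn0 : (0:ℝ) < n := by exact_mod_cast hn
  obtain ⟨k, rfl⟩ : ∃ k, m = n + k := ⟨m - n, by omega⟩
  obtain ⟨x, hx⟩ : ∃ x : ℝ, x = (((n + k : ℕ) : ℝ) - n + 1) / n := ⟨_, rfl⟩
  have hx' : x = ((k:ℝ) + 1) / n := by rw [hx]; push_cast; ring
  have hx0 : 0 < x := by rw [hx']; positivity
  have hxc : 0 < x ^ c := by positivity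
  rw [← hx]
  rcases Nat.eq_zero_or_pos k with rfl | hk
  · -- the same box
    have h1 := (hgap n 0 hn le_rfl).2.2.2.1
    rw [zero_mul, zero_add] at h1
    have h2 : (1 / (n:ℝ)) ^ c3 ≤ x ^ c := by
      rw [hx']
      push_cast
      rw [zero_add]
      apply Real.rpow_le_rpow_of_exponent_ge (by positivity) _ hcc3
      rw [div_le_one hn0]
      exact_mod_cast hn
    rw [prob_eq] at h1 ⊢
    have h3 : C3 * (1 / (n:ℝ)) ^ c3 ≤ (120 + C1 + C3) * x ^ c := by
      have := mul_le_mul_of_nonneg_left h2 hC3.le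
      nlinarith
    refine le_trans (Pr_mono ok ?_) (h1.trans h3)
    rintro F hF ⟨v, w, hv, hw, hnear⟩
    have hFe : F ⊆ edges n := by rw [edges_eq]; exact hF
    rw [Finset.inter_eq_left.2 hFe] at hw hnear
    have hv' : Largest n F v := hv
    refine ⟨v, hv', w, hw.1, ?_, ?_⟩
    · intro hwv
      apply hnear
      have h4 : Near n 0 F v F v := Near.refl le_rfl F v
      have h5 : Near n 0 F v F w := h4.base (self_cluster F v) (mem_cluster_comm hwv)
      have hr : 0 ≤ (120 + C1 + C3) * x ^ c := by positivity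
      have h6 := h5.mono hr
      exact ⟨h6.1, h6.2⟩
    · rw [sub_zero]
      exact largest_le hFe hw hv'.1
  · -- different boxes
    have hk0 : (0:ℝ) < k := by exact_mod_cast hk
    have hN0 : (0:ℝ) < ((n + k : ℕ) : ℝ) := by push_cast; positivity
    obtain ⟨y, hy⟩ : ∃ y : ℝ, y = ((n + k : ℕ) : ℝ) / k := ⟨_, rfl⟩
    have hy1 : 1 ≤ y := by
      rw [hy, le_div_iff₀ hk0, one_mul]
      push_cast
      linarith
    have hy0 : 0 < y := by linarith
    obtain ⟨L, hL⟩ : ∃ L : ℝ, L = y ^ (1 / (e4:ℝ)) := ⟨_, rfl⟩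
    have hL1 : 1 ≤ L := by rw [hL]; exact Real.one_le_rpow hy1 (by positivity)
    have hL0 : 0 < L := by linarith
    have hLe : L ^ e4 = y := by
      rw [hL, ← Real.rpow_natCast, ← Real.rpow_mul hy0.le, one_div, inv_mul_cancel₀ he4r.ne',
        Real.rpow_one]
    have hxL : 1 / L ≤ x ^ c := by
      have h1 : 1 / y ≤ x := by
        rw [hy, hx', one_div_div, div_le_div_iff₀ hN0 hn0]
        push_cast
        nlinarith
      calc 1 / L = (1 / y) ^ (1 / (e4:ℝ)) := by
            rw [hL, Real.div_rpow (by norm_num) hy0.le, Real.one_rpow]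
        _ ≤ (1 / y) ^ c := by
            apply Real.rpow_le_rpow_of_exponent_ge (by positivity) _ hce
            rw [div_le_one hy0]
            exact hy1
        _ ≤ x ^ c := Real.rpow_le_rpow (by positivity) h1 hc0.le
    rw [prob_eq]
    by_cases hL120 : 120 ≤ L
    · have h1 := hlarge n k L hk hL120 (by rw [← he4, hLe, hy])
      have h2 : C1 / L ≤ (120 + C1 + C3) * x ^ c := by
        calc C1 / L = C1 * (1 / L) := by ring
          _ ≤ C1 * x ^ c := mul_le_mul_of_nonneg_left hxL hC1.le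
          _ ≤ (120 + C1 + C3) * x ^ c := by
            apply mul_le_mul_of_nonneg_right _ hxc.le
            linarith
      have h3 : 54 / L ≤ (120 + C1 + C3) * x ^ c := by
        calc 54 / L = 54 * (1 / L) := by ring
          _ ≤ 54 * x ^ c := mul_le_mul_of_nonneg_left hxL (by norm_num)
          _ ≤ (120 + C1 + C3) * x ^ c := by
            apply mul_le_mul_of_nonneg_right _ hxc.le
            linarith
      refine le_trans (Pr_mono ok ?_) (h1.trans h2)
      intro F _ hS
      obtain ⟨v, w, hv, hw, hnear⟩ := hS.anti h3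
      rw [edges_eq] at hw hnear
      exact ⟨v, w, hv, hw, hnear⟩
    · push Not at hL120
      refine (Pr_le_one ok _ _).trans ?_
      have h1 : 1 / 120 ≤ x ^ c := by
        refine le_trans ?_ hxL
        exact one_div_le_one_div_of_le hL0 hL120.le
      nlinarith

end Pool.Agent.H950.SV
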