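import Pool.Agent.H950.SV.Bound

/-!
The strips on the other sides.
-/

set_option autoImplicit false

namespace Pool.Agent.H950.SV

open H974 H12S H389NS H984N H984P H342P H443B Finset
open Pool.Agent.H950.AD
open Pool.Agent.N116.EW (sd_comm' sd_tri sd_self' sd_nxt sd_mv sd_face sd_face_rt En)

variable {F E : Finset Edg} {u : Vtx}

theorem sym_En (g : LSym) {e : Edg} {x v : Vtx} (h : En e x v) : En (g.φ e) (g.ψ x) (g.ψ v) := by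
  rcases g.compat e with ⟨h1, h2⟩ | ⟨h1, h2⟩ <;> rcases h with ⟨h3, h4⟩ | ⟨h3, h4⟩
  · exact Or.inl ⟨by rw [h3, h1], by rw [h4, h2]⟩
  · exact Or.inr ⟨by rw [h3, h2], by rw [h4, h1]⟩
  · exact Or.inr ⟨by rw [h3, h2], by rw [h4, h1]⟩
  · exact Or.inl ⟨by rw [h3, h1], by rw [h4, h2]⟩

theorem sym_mem (g : LSym) {e : Edg} : g.φ e ∈ g.mp F ↔ e ∈ F := by
  rw [g.mem_mp, Equiv.symm_apply_apply]

theorem sym_CV (g : LSym) {x : Vtx} : g.ψ x ∈ CV (g.mp F) (g.ψ u) ↔ x ∈ CV F u := by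
  show Reach (↑(g.mp F) : Set Edg) (g.ψ u) (g.ψ x) ↔ _
  rw [g.coe_mp, g.reach_iff]
  exact Iff.rfl

/-- The event is invariant under the symmetries of the lattice. -/
theorem badS_mp (g : LSym) (hg : ∀ x y, sd (g.ψ x) (g.ψ y) = sd x y) {ρ R ρ0 : ℕ}
    (h : BadS ρ R ρ0 E F) : BadS ρ R ρ0 (g.mp E) (g.mp F) := by
  obtain ⟨u, hfar, hcase⟩ := h
  refine ⟨g.ψ u, ?_, ?_⟩
  · intro x hx
    rw [← g.mp_inter] at hx ⊢
    obtain ⟨x', rfl⟩ : ∃ x', x = g.ψ x' := ⟨g.ψ.symm x, by simp⟩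
    rw [sym_CV] at hx
    obtain ⟨a, ha, hxa⟩ := hfar x' hx
    exact ⟨g.ψ a, (sym_CV g).2 ha, by rw [hg]; exact hxa⟩
  rw [← g.mp_inter]
  rcases hcase with hN | hL
  · left
    intro hV
    apply hN
    intro e he heF x v hE hx hv w hw
    rw [← hg]
    refine hV (g.φ e) ((sym_mem g).2 he) (fun h1 => heF ((sym_mem g).1 h1)) (g.ψ x) (g.ψ v)
      (sym_En g hE) ((sym_CV g).2 hx) (fun h1 => hv ((sym_CV g).1 h1)) (g.ψ w) ?_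
    refine (g.reach hw).mono ?_
    rintro _ ⟨g', ⟨h1, h2, h3⟩, rfl⟩
    refine ⟨(sym_mem g).2 h1, ?_, ?_⟩
    · rcases g.compat g' with ⟨e1, e2⟩ | ⟨e1, e2⟩
      · rw [e1, sym_CV]; exact h2
      · rw [e1, sym_CV]; exact h3
    · rcases g.compat g' with ⟨e1, e2⟩ | ⟨e1, e2⟩
      · rw [e2, sym_CV]; exact h3
      · rw [e2, sym_CV]; exact h2
  · right
    intro hV
    apply hL
    intro e he heF e' he' heF' x v x' v' hE hE' hx hx' hxx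
    have h1 := hV (g.φ e) ((sym_mem g).2 he) (fun h1 => heF ((sym_mem g).1 h1)) (g.φ e')
      ((sym_mem g).2 he') (fun h1 => heF' ((sym_mem g).1 h1)) (g.ψ x) (g.ψ v) (g.ψ x') (g.ψ v')
      (sym_En g hE) (sym_En g hE') ((sym_CV g).2 hx) ((sym_CV g).2 hx') (by rw [hg]; exact hxx)
    rw [← g.reach_iff]
    refine h1.mono ?_
    rintro g' ⟨h2, h3, h4⟩
    refine ⟨g.φ.symm g', ⟨?_, ?_⟩, by simp⟩
    · rw [g.mem_mp] at h2; exact h2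
    · obtain ⟨g'', rfl⟩ : ∃ g'', g' = g.φ g'' := ⟨g.φ.symm g', by simp⟩
      rw [Equiv.symm_apply_apply]
      rcases g.compat g'' with ⟨e1, e2⟩ | ⟨e1, e2⟩
      · rw [e1, hg] at h3
        rw [e2, hg] at h4
        exact ⟨h3, h4⟩
      · rw [e1, hg] at h3
        rw [e2, hg] at h4
        exact ⟨h4, h3⟩

theorem pr_badS (g : LSym) (hg : ∀ x y, sd (g.ψ x) (g.ψ y) = sd x y) (ρ R ρ0 : ℕ)
    (S E : Finset Edg) : PQ (1/2) S (BadS ρ R ρ0 E) ≤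
      PQ (1/2) (g.mp S) (BadS ρ R ρ0 (g.mp E)) := by
  unfold PQ
  rw [g.pr]
  exact Pr_mono (okq (by norm_num) (by norm_num)) (fun F _ hF => badS_mp g hg hF)

theorem sd_rfy (k : ℤ) (x y : Vtx) : sd ((rfy k).ψ x) ((rfy k).ψ y) = sd x y := by
  obtain ⟨x1, x2⟩ := x
  obtain ⟨y1, y2⟩ := y
  simp only [rfy_ψ, sd]
  congr 1
  rw [show k - x2 - (k - y2) = -(x2 - y2) by ring, abs_neg]

theorem sd_tps (x y : Vtx) : sd (tps.ψ x) (tps.ψ y) = sd x y := by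
  obtain ⟨x1, x2⟩ := x
  obtain ⟨y1, y2⟩ := y
  simp only [tps_ψ, sd]
  exact max_comm _ _

/-- A strip above a rectangle. -/
theorem pr_top {w n k : ℕ} (ρ R ρ0 : ℕ) :
    PQ (1/2) (RE 0 w 0 ((n + k : ℕ) : ℤ)) (BadS ρ R ρ0 (RE 0 w 0 n)) ≤
      PQ (1/2) (RE 0 w 0 ((n + k : ℕ) : ℤ)) (BadS ρ R ρ0 (RE 0 w k ((n + k : ℕ) : ℤ))) := by
  have h := pr_badS (rfy ((n + k : ℕ) : ℤ)) (sd_rfy _) ρ R ρ0 (RE 0 w 0 ((n + k : ℕ) : ℤ))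
    (RE 0 w 0 n)
  rw [rfy_RE, rfy_RE] at h
  have e1 : ((n + k : ℕ) : ℤ) - ((n + k : ℕ) : ℤ) = 0 := by ring
  have e2 : ((n + k : ℕ) : ℤ) - 0 = ((n + k : ℕ) : ℤ) := by ring
  have e3 : ((n + k : ℕ) : ℤ) - n = k := by push_cast; ring
  rw [e1, e2, e3] at h
  exact h

/-- A strip on the right. -/
theorem pr_right {w n k : ℕ} (ρ R ρ0 : ℕ) :
    PQ (1/2) (RE 0 ((n + k : ℕ) : ℤ) 0 w) (BadS ρ R ρ0 (RE 0 n 0 w)) ≤
      PQ (1/2) (RE 0 w 0 ((n + k : ℕ) : ℤ)) (BadS ρ R ρ0 (RE 0 w k ((n + k : ℕ) : ℤ))) := by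
  have h := pr_badS tps sd_tps ρ R ρ0 (RE 0 ((n + k : ℕ) : ℤ) 0 w) (RE 0 n 0 w)
  rw [tps_RE, tps_RE] at h
  exact h.trans (pr_top ρ R ρ0)

end Pool.Agent.H950.SV
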