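import Pool.Agent.H950.SV.Strip

/-!
Failure of the bound for the excursions: an additional path starts next to the leftmost or rightmost
point of a local cluster.
-/

set_option autoImplicit false

namespace Pool.Agent.H950.SV

open H974 H12S H389NS H984N H984P H342P H443B Finset
open H973 (EV no_cross hline' vline' reach_EV)
open H973S (sep_bottom rim Om Tg)
open Pool.Agent.H950.AD
open Pool.Agent.N116.EW (sd_comm' sd_tri sd_self' sd_nxt sd_mv sd_face sd_face_rt En)

variable {F G : Finset Edg} {u : Vtx} {w h k : ℕ}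

/-- The local cluster of a vertex of the line. -/
def lcl (z : ℤ) (k m : ℕ) (b : ℤ) (F : Finset Edg) : Set Vtx :=
  {y | Reach ((↑F : Set Edg) ∩ ↑(Om z k m)) (b, (k : ℤ)) y}

open Classical in
/-- The edges which have to be examined in order to find it. -/
noncomputable def Kb (z : ℤ) (k m : ℕ) (b : ℤ) (F : Finset Edg) : Finset Edg :=
  (Om z k m).filter (fun g => src g ∈ lcl z k m b F ∨ tgt g ∈ lcl z k m b F)

/-- The vertex is the last one (on one of the two sides) of a local cluster which crosses. -/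
def RM (s z : ℤ) (k m : ℕ) (b : ℤ) (F : Finset Edg) : Prop :=
  (∃ y ∈ Tg z k m, y ∈ lcl z k m b F) ∧ (∃ x1 : ℤ, |x1 - z| ≤ m ∧ (x1, (k : ℤ)) ∈ lcl z k m b F) ∧
    ∀ b', s * b < s * b' → (b', (k : ℤ)) ∉ lcl z k m b F

/-- There is an additional path next to it. -/
def Wev (s z : ℤ) (k m : ℕ) (b : ℤ) (ρ' : ℕ) (F : Finset Edg) : Prop :=
  RM s z k m b F ∧ Crs b k k ρ' (↑(F \ Kb z k m b F) : Set Edg)

/-- Failure of the bound for the excursions. -/
theorem nv_fail (hF : F ⊆ RE 0 w 0 h) {ρ R ρ0 m : ℕ} (hk : 1 ≤ k) (hkm : k ≤ m) (hm : 8 * m ≤ ρ)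
    (hmR : m ≤ R) (hR0 : 8 * R ≤ ρ0) (hh : k + 3 * m ≤ h)
    (hfar : ∀ x ∈ CV (F ∩ RE 0 w k h) u, ∃ a ∈ CV (F ∩ RE 0 w k h) u, (ρ0 : ℤ) ≤ sd x a)
    (hNV : ¬ NV ρ (F ∩ RE 0 w k h) F u) :
    Crs 0 k (4 * R) (ρ0 / 2) (↑F : Set Edg) ∨ Crs w k (4 * R) (ρ0 / 2) (↑F : Set Edg) ∨
    ∃ j : ℕ, 3 * (m : ℤ) ≤ j * m ∧ (j : ℤ) * m ≤ w - 3 * m ∧ ∃ s : ℤ, (s = 1 ∨ s = -1) ∧
      ∃ b ∈ Finset.Icc ((j : ℤ) * m - 3 * m) (j * m + 3 * m), Wev s (j * m) k m b (ρ / 2) F := by
  classical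
  unfold NV at hNV
  push Not at hNV
  obtain ⟨e, he, heF, x, v, hE, hx, hv, w', hw', hvw⟩ := hNV
  obtain ⟨a0, ha0, hxa0⟩ := hfar x hx
  have u1 := cv_up hx ha0 (by omega)
  have ua0 := cv_up ha0 hx (by rw [sd_comm']; omega)
  obtain ⟨t1, t2, t3, t4⟩ := touch hF he heF hE u1.2.1
  by_cases c1 : x.1 < 4 * R
  · left
    refine corner hfar hx t1 ?_ (by omega)
    rw [abs_le]; push_cast; omega
  by_cases c2 : (w : ℤ) - 4 * R < x.1
  · right; left
    refine corner hfar hx t1 ?_ (by omega)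
    rw [abs_le]; push_cast; omega
  right; right
  have hm0 : (0 : ℤ) < m := by omega
  obtain ⟨j, hj⟩ : ∃ j : ℕ, (j : ℤ) = x.1 / m := ⟨(x.1 / m).toNat, by
    rw [Int.toNat_of_nonneg (Int.ediv_nonneg t3 hm0.le)]⟩
  have hj1 : (j : ℤ) * m ≤ x.1 := by
    rw [hj]
    exact Int.ediv_mul_le _ (by omega)
  have hj2 : x.1 < (j : ℤ) * m + m := by
    rw [hj]
    have := Int.lt_ediv_add_one_mul_self x.1 hm0
    rw [add_mul, one_mul] at this
    exact this
  refine ⟨j, by omega, by omega, ?_⟩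
  obtain ⟨z, hz⟩ : ∃ z : ℤ, z = (j : ℤ) * m := ⟨_, rfl⟩
  rw [← hz] at hj1 hj2 ⊢
  clear hz hj
  -- the local cluster
  obtain ⟨K, hK⟩ : ∃ K, K = lcl z k m x.1 F := ⟨_, rfl⟩
  have hxk : (x.1, (k : ℤ)) = x := by rw [← t1]
  have hKm : ∀ y, y ∈ K ↔ Reach ((↑F : Set Edg) ∩ ↑(Om z k m)) x y := by
    intro y
    rw [hK]
    unfold lcl
    rw [hxk]
    exact Iff.rfl
  have hxK : x ∈ K := (hKm x).2 (Reach.refl _ _)
  have hOm : Om z k m ⊆ RE 0 w k h := by
    unfold Om
    exact RE_subset (by omega) (by omega) le_rfl (by omega)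
  have hFOm : (↑F : Set Edg) ∩ ↑(Om z k m) ⊆ ↑(F ∩ RE 0 w k h) := by
    rintro g ⟨h1, h2⟩
    rw [Finset.coe_inter]
    exact ⟨h1, by exact_mod_cast hOm (by exact_mod_cast h2)⟩
  have hKC : ∀ y ∈ K, y ∈ CV (F ∩ RE 0 w k h) u := by
    intro y hy
    have h1 : Reach (↑(F ∩ RE 0 w k h) : Set Edg) u x := hx
    exact h1.trans (((hKm y).1 hy).mono hFOm)
  have hxbox : inR (z - 3 * m) (z + 3 * m) k (k + 3 * m) x := by unfold inR; omega
  have hKbox : ∀ y ∈ K, inR (z - 3 * m) (z + 3 * m) k (k + 3 * m) y := by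
    intro y hy
    by_cases hxy : x = y
    · rw [← hxy]; exact hxbox
    · exact rect_reach (fun g hg => by exact_mod_cast hg.2) ((hKm y).1 hy) hxy
  -- the excursion
  obtain ⟨X, hX⟩ : ∃ X : Set Edg, X = {g | g ∈ F ∧ src g ∉ CV (F ∩ RE 0 w k h) u ∧
    tgt g ∉ CV (F ∩ RE 0 w k h) u} := ⟨_, rfl⟩
  rw [← hX] at hw'
  -- production of the event
  have hprod : ∀ (s c i : ℤ), (c, (k : ℤ)) ∈ K → 0 ≤ i → i < k → Reach X v (c, i) →
      (∀ b', s * c < s * b' → (b', (k : ℤ)) ∉ K) → Wev s z k m c (ρ / 2) F := by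
    intro s c i hc hi0 hik hvc hext
    have hcl : lcl z k m c F = K := by
      ext y
      have h1 := (hKm _).1 hc
      rw [hKm]
      exact ⟨fun h2 => h1.trans h2, fun h2 => h1.symm.trans h2⟩
    refine ⟨⟨?_, ?_, ?_⟩, ?_⟩
    · rw [hcl]
      have h1 : Reach (↑(F ∩ RE 0 w k h) : Set Edg) x a0 := by
        have h2 : Reach (↑(F ∩ RE 0 w k h) : Set Edg) u x := hx
        have h3 : Reach (↑(F ∩ RE 0 w k h) : Set Edg) u a0 := ha0
        exact h2.symm.trans h3
      obtain ⟨y, hy1, hy2⟩ := exit_half (a := z - 3 * m) (b := z + 3 * m) (k := k)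
        (d := k + 3 * m) (fun g hg => src_low (Finset.mem_inter.1
          (show g ∈ F ∩ RE 0 w k h by exact_mod_cast hg)).2) hxbox (by
          unfold sd at hxa0
          unfold inR at ua0
          rcases le_max_iff.1 hxa0 with h4 | h4
          · rcases le_abs.1 h4 with h5 | h5 <;> omega
          · rcases le_abs.1 h4 with h5 | h5 <;> omega) h1
      refine ⟨y, hy1, (hKm y).2 (hy2.mono ?_)⟩
      rintro g ⟨h2, h3⟩
      exact ⟨by exact_mod_cast (Finset.mem_inter.1 (show g ∈ F ∩ RE 0 w k h by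
        exact_mod_cast h2)).1, h3⟩
    · rw [hcl]
      refine ⟨x.1, by rw [abs_le]; omega, ?_⟩
      rw [hxk]
      exact hxK
    · rw [hcl]
      exact hext
    · have hsub : X ⊆ (↑(F \ Kb z k m c F) : Set Edg) := by
        rw [hX]
        rintro g ⟨h1, h2, h3⟩
        rw [Finset.coe_sdiff]
        refine ⟨by exact_mod_cast h1, ?_⟩
        intro h4
        have h5 : g ∈ Kb z k m c F := by exact_mod_cast h4
        unfold Kb at h5
        rw [Finset.mem_filter, hcl] at h5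
        rcases h5.2 with h6 | h6
        · exact h2 (hKC _ h6)
        · exact h3 (hKC _ h6)
      have hfar2 : ∀ y : Vtx, ((ρ / 2 : ℕ) : ℤ) ≤ sd (c, (k : ℤ)) y →
          (y.1 ≤ c - (ρ / 2 : ℕ) ∨ c + (ρ / 2 : ℕ) ≤ y.1 ∨ y.2 ≤ k - (ρ / 2 : ℕ) ∨
            (k : ℤ) + (ρ / 2 : ℕ) ≤ y.2) := by
        intro y hy
        unfold sd at hy
        simp only at hy
        rcases le_max_iff.1 hy with h4 | h4
        · rcases le_abs.1 h4 with h5 | h5 <;> omega
        · rcases le_abs.1 h4 with h5 | h5 <;> omega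
      have hci : inR (c - k) (c + k) ((k : ℤ) - k) (k + k) (c, i) := by
        unfold inR; simp only; omega
      by_cases hcase : ((ρ / 2 : ℕ) : ℤ) ≤ sd (c, (k : ℤ)) v
      · exact ⟨(c, i), v, hci, hfar2 v hcase, (hvc.symm).mono hsub⟩
      · refine ⟨(c, i), w', hci, hfar2 w' ?_, (hvc.symm.trans hw').mono hsub⟩
        have k1 := sd_tri v (c, (k : ℤ)) w'
        rw [sd_comm' v (c, (k : ℤ))] at k1
        omega
  -- extreme points
  obtain ⟨B, hB⟩ : ∃ B : Finset ℤ, ∀ c, c ∈ B ↔ (c, (k : ℤ)) ∈ K := by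
    refine ⟨(Finset.Icc (z - 3 * m) (z + 3 * m)).filter (fun c => (c, (k : ℤ)) ∈ K), ?_⟩
    intro c
    rw [Finset.mem_filter, Finset.mem_Icc]
    refine ⟨fun h1 => h1.2, fun h1 => ⟨?_, h1⟩⟩
    have := hKbox _ h1
    unfold inR at this
    exact this.1
  have hBne : B.Nonempty := ⟨x.1, (hB _).2 (by rw [hxk]; exact hxK)⟩
  obtain ⟨b, hb, hbmax⟩ : ∃ b ∈ B, ∀ c ∈ B, c ≤ b := B.exists_max_image id hBne
  obtain ⟨a, ha, hamin⟩ : ∃ a ∈ B, ∀ c ∈ B, a ≤ c := B.exists_min_image id hBne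
  have hbK := (hB b).1 hb
  have haK := (hB a).1 ha
  have hbI : b ∈ Finset.Icc (z - 3 * m) (z + 3 * m) := by
    have := hKbox _ hbK
    unfold inR at this
    rw [Finset.mem_Icc]
    exact this.1
  have haI : a ∈ Finset.Icc (z - 3 * m) (z + 3 * m) := by
    have := hKbox _ haK
    unfold inR at this
    rw [Finset.mem_Icc]
    exact this.1
  by_cases hcase : ∃ i : ℤ, 0 ≤ i ∧ i < k ∧ (Reach X v (a, i) ∨ Reach X v (b, i))
  · obtain ⟨i, hi1, hi2, hi3 | hi3⟩ := hcase
    · refine ⟨-1, Or.inr rfl, a, haI, hprod (-1) a i haK hi1 hi2 hi3 ?_⟩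
      intro b' hb' hcon
      have := hamin b' ((hB b').2 hcon)
      omega
    · refine ⟨1, Or.inl rfl, b, hbI, hprod 1 b i hbK hi1 hi2 hi3 ?_⟩
      intro b' hb' hcon
      have := hbmax b' ((hB b').2 hcon)
      omega
  exfalso
  push Not at hcase
  -- strict inequalities
  have hax : a < x.1 := by
    rcases lt_or_eq_of_le (hamin x.1 ((hB _).2 (by rw [hxk]; exact hxK))) with h1 | h1
    · exact h1
    · exfalso
      apply (hcase (k - 1) (by omega) (by omega)).1
      rw [h1, ← t2]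
      exact Reach.refl _ _
  have hxb : x.1 < b := by
    rcases lt_or_eq_of_le (hbmax x.1 ((hB _).2 (by rw [hxk]; exact hxK))) with h1 | h1
    · exact h1
    · exfalso
      apply (hcase (k - 1) (by omega) (by omega)).2
      rw [← h1, ← t2]
      exact Reach.refl _ _
  rw [Finset.mem_Icc] at haI hbI
  -- the barrier
  obtain ⟨W, hW⟩ : ∃ W : Vtx → Prop, W = fun y => y ∈ K ∨ ((y.1 = a ∨ y.1 = b) ∧ 0 ≤ y.2 ∧
    y.2 < k) := ⟨_, rfl⟩
  have hWK : ∀ y ∈ K, W y := fun y hy => by rw [hW]; exact Or.inl hy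
  have hXK : ∀ y, Reach X v y → y ∉ K ∧ y ∉ CV (F ∩ RE 0 w k h) u := by
    intro y hy
    have key : y ∉ CV (F ∩ RE 0 w k h) u := by
      induction hy with
      | refl => exact hv
      | @tail z' z'' _ hs ih =>
        obtain ⟨g, hg, hE'⟩ := adj_En hs
        rw [hX] at hg
        rcases hE' with ⟨-, h2⟩ | ⟨-, h2⟩
        · rw [h2]; exact hg.2.2
        · rw [h2]; exact hg.2.1
    exact ⟨fun h1 => key (hKC y h1), key⟩
  have hXF : ∀ g ∈ X, g ∈ RE 0 (w : ℤ) 0 h := by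
    rw [hX]
    rintro g ⟨h1, -⟩
    exact hF h1
  have hXy : ∀ y, Reach X v y → 0 ≤ y.2 := by
    intro y hy
    by_cases h1 : v = y
    · rw [← h1, t2]; simp only; omega
    · have := rect_reach hXF hy h1
      unfold inR at this
      omega
  have hXW : ∀ y, Reach X v y → ¬ W y := by
    intro y hy
    rw [hW]
    rintro (h1 | ⟨h1, h2, h3⟩)
    · exact (hXK y hy).1 h1
    · rcases h1 with h1 | h1
      · apply (hcase y.2 h2 h3).1
        rw [← h1]
        exact hy
      · apply (hcase y.2 h2 h3).2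
        rw [← h1]
        exact hy
  -- the exit of the excursion
  obtain ⟨y, ⟨hy1, hy2⟩, hy3⟩ := exit_half (H := X) (a := z - 3 * m) (b := z + 3 * m) (k := 0)
    (d := k + 3 * m) (fun g hg => src_low (hXF g hg)) (v := v) (y := w')
    (by rw [t2]; unfold inR; simp only; omega) (by
      have k1 := hXy w' hw'
      by_contra hno
      push Not at hno
      have : sd v w' < 8 * m := by
        rw [t2]
        unfold sd
        simp only
        apply max_lt <;> rw [abs_lt] <;> constructor <;> omega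
      omega) hw'
  refine sep_bottom (a := z - 3 * m) (b := z + 3 * m) (c := 0) (d := k + 3 * m) (x1 := a)
    (x2 := x.1) (x3 := b) hax hxb (by omega) (by omega) (by omega) (W := W) ?_ ?_ ?_ hy1 hy2
    (hXW y (hy3.mono Set.inter_subset_left)) ?_ ?_
  · rw [hW]; exact Or.inr ⟨Or.inl rfl, le_rfl, by simp only; omega⟩
  · rw [hW]; exact Or.inr ⟨Or.inr rfl, le_rfl, by simp only; omega⟩
  · rw [hW]
    rintro (h1 | ⟨h1, -⟩)
    · have := hKbox _ h1
      unfold inR at this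
      simp only at this
      omega
    · simp only at h1
      omega
  · -- the path in the barrier
    have v1 : ∀ c : ℤ, (c = a ∨ c = b) → (c, (k : ℤ)) ∈ K →
        Reach (EV W ∩ ↑(RE (z - 3 * m) (z + 3 * m) 0 (k + 3 * m))) (c, 0) (c, (k : ℤ)) := by
      intro c hc hcK
      refine vline' (by omega) (by omega) (by omega) (by omega) ?_
      intro i hi1 hi2
      rcases lt_or_eq_of_le hi2 with h1 | h1
      · rw [hW]; exact Or.inr ⟨hc, hi1, h1⟩
      · rw [h1]; exact hWK _ hcK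
    refine (v1 a (Or.inl rfl) haK).trans (Reach.trans ?_ (v1 b (Or.inr rfl) hbK).symm)
    have h1 : Reach ((↑F : Set Edg) ∩ ↑(Om z k m)) (a, (k : ℤ)) (b, (k : ℤ)) :=
      ((hKm _).1 haK).symm.trans ((hKm _).1 hbK)
    refine reach_EV (V := W) ?_ ?_ h1
    · intro y' hy'
      exact hWK _ ((hKm _).2 (((hKm _).1 haK).trans hy'))
    · rintro g ⟨-, hg⟩
      have h2 : g ∈ Om z k m := by exact_mod_cast hg
      unfold Om at h2
      exact_mod_cast RE_subset (by omega) (by omega) (by omega) (by omega) h2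
  · -- the path in its complement
    have h1 : Reach (EV (fun y => ¬ W y) ∩ ↑(RE (z - 3 * m) (z + 3 * m) 0 (k + 3 * m)))
        (x.1, 0) v := by
      rw [t2]
      refine vline' (by omega) (by omega) (by omega) (by omega) ?_
      intro i hi1 hi2
      rw [hW]
      rintro (h1 | ⟨h1, -⟩)
      · have := hKbox _ h1
        unfold inR at this
        simp only at this
        omega
      · simp only at h1
        omega
    refine h1.trans ?_
    refine reach_EV (V := fun y => ¬ W y) ?_ ?_ hy3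
    · intro y' hy'
      exact hXW y' (hy'.mono Set.inter_subset_left)
    · rintro g ⟨-, hg⟩
      exact hg

end Pool.Agent.H950.SV
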